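import Mathlib

/-!
# Inequalities for centred intervals under one-dimensional Gaussian measures
-/

set_option autoImplicit false

namespace Pool.Agent.Y339.KG

open MeasureTheory ProbabilityTheory Set Filter
open scoped ENNReal NNReal Topology

/-- standard normal density -/
noncomputable def ph (x : ℝ) : ℝ := gaussianPDFReal 0 1 x

lemma ph_eq (x : ℝ) : ph x = (Real.sqrt (2 * Real.pi))⁻¹ * Real.exp (-(x ^ 2 / 2)) := by
  unfold ph gaussianPDFReal
  congr 2
  · simp
  · simp only [NNReal.coe_one, sub_zero, mul_one]; ring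

lemma ph_cont : Continuous ph := by
  have : ph = fun x => (Real.sqrt (2 * Real.pi))⁻¹ * Real.exp (-(x ^ 2 / 2)) := funext ph_eq
  rw [this]
  fun_prop

lemma ph_pos (x : ℝ) : 0 < ph x := by rw [ph_eq]; positivity

lemma ph_mono {x y : ℝ} (h : |x| ≤ |y|) : ph y ≤ ph x := by
  rw [ph_eq, ph_eq]
  apply mul_le_mul_of_nonneg_left _ (by positivity)
  apply Real.exp_le_exp.2
  have := sq_le_sq.2 h
  linarith

lemma ph_int (a b : ℝ) : IntervalIntegrable ph volume a b := ph_cont.intervalIntegrable _ _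

/-- standard normal measure of `[-a, a]` -/
noncomputable def NN (a : ℝ) : ℝ := ∫ x in (-a)..a, ph x

lemma meas_Icc (a b : ℝ) (hab : a ≤ b) :
    gaussianReal 0 1 (Icc a b) = ENNReal.ofReal (∫ x in a..b, ph x) := by
  rw [gaussianReal_apply_eq_integral 0 one_ne_zero, intervalIntegral.integral_of_le hab,
    integral_Icc_eq_integral_Ioc]
  rfl

lemma NN_eq (a : ℝ) : NN a = 2 * ∫ x in (0 : ℝ)..a, ph x := by
  unfold NN
  rw [← intervalIntegral.integral_add_adjacent_intervals (ph_int (-a) 0) (ph_int 0 a)]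
  have h : ∫ x in (-a)..0, ph x = ∫ x in (0 : ℝ)..a, ph x := by
    have h1 := intervalIntegral.integral_comp_neg (a := 0) (b := a) (fun x => ph x)
    rw [neg_zero] at h1
    rw [← h1]
    refine intervalIntegral.integral_congr fun x _ => ?_
    show ph (-x) = ph x
    rw [ph_eq, ph_eq, neg_sq]
  rw [h]; ring

lemma NN_deriv (a : ℝ) : HasDerivAt NN (2 * ph a) a := by
  have h : NN = fun a => 2 * ∫ x in (0 : ℝ)..a, ph x := funext NN_eq
  rw [h]
  exact (intervalIntegral.integral_hasDerivAt_right (ph_int 0 a)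
    (ph_cont.stronglyMeasurableAtFilter _ _) ph_cont.continuousAt).const_mul 2

lemma NN_zero : NN 0 = 0 := by unfold NN; simp

lemma NN_pos {a : ℝ} (ha : 0 < a) : 0 < NN a := by
  unfold NN
  exact intervalIntegral.intervalIntegral_pos_of_pos (ph_int _ _) ph_pos (by linarith)

lemma NN_tendsto : Tendsto NN atTop (𝓝 1) := by
  have h := intervalIntegral_tendsto_integral (μ := volume) (f := ph) (l := atTop)
    (a := fun b : ℝ => -b) (b := fun b : ℝ => b) (integrable_gaussianPDFReal 0 1)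
    tendsto_neg_atTop_atBot tendsto_id
  have h2 : ∫ x, ph x = 1 := integral_gaussianPDFReal_eq_one 0 one_ne_zero
  rw [h2] at h
  exact h

/-- `a³ φ(a) ≤ 11 e^{-a₀²/4} N(a)` for `a ≥ a₀` -/
lemma cube_le {a : ℝ} (ha : 0 ≤ a) :
    (Real.sqrt (2 * Real.pi))⁻¹ * (a ^ 3 * Real.exp (-(a ^ 2 / 4))) ≤ 11 * NN a := by
  set c := (Real.sqrt (2 * Real.pi))⁻¹ with hc
  have hc0 : 0 < c := by positivity
  set G : ℝ → ℝ := fun a => 11 * NN a - c * (a ^ 3 * Real.exp (-(a ^ 2 / 4))) with hG
  have hd : ∀ a : ℝ, HasDerivAt G (11 * (2 * ph a) -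
      c * (3 * a ^ 2 * Real.exp (-(a ^ 2 / 4)) + a ^ 3 * (Real.exp (-(a ^ 2 / 4)) * (-(a / 2))))) a := by
    intro a
    have h1 : HasDerivAt (fun a : ℝ => a ^ 3) (3 * a ^ 2) a := by
      simpa using hasDerivAt_pow 3 a
    have h2 : HasDerivAt (fun a : ℝ => -(a ^ 2 / 4)) (-(a / 2)) a := by
      have := ((hasDerivAt_pow 2 a).div_const 4).neg
      exact this.congr_deriv (by push_cast; ring)
    exact ((NN_deriv a).const_mul 11).sub ((h1.mul h2.exp).const_mul c)
  have hmono : MonotoneOn G (Ici 0) := by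
    apply monotoneOn_of_deriv_nonneg (convex_Ici 0)
      (fun x _ => (hd x).continuousAt.continuousWithinAt)
      (fun x _ => (hd x).differentiableAt.differentiableWithinAt)
    intro x hx
    rw [interior_Ici, mem_Ioi] at hx
    rw [(hd x).deriv]
    have e1 : ph x = c * (Real.exp (-(x ^ 2 / 4)) * Real.exp (-(x ^ 2 / 4))) := by
      rw [ph_eq, ← hc, ← Real.exp_add]; congr 2; ring
    rw [e1]
    have e2 : 11 * (2 * (c * (Real.exp (-(x ^ 2 / 4)) * Real.exp (-(x ^ 2 / 4))))) -
      c * (3 * x ^ 2 * Real.exp (-(x ^ 2 / 4)) + x ^ 3 * (Real.exp (-(x ^ 2 / 4)) * (-(x / 2)))) =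
      c * Real.exp (-(x ^ 2 / 4)) * (22 * Real.exp (-(x ^ 2 / 4)) - (3 * x ^ 2 - x ^ 4 / 2)) := by
      ring
    rw [e2]
    apply mul_nonneg (by positivity)
    rw [sub_nonneg]
    rcases le_total 6 (x ^ 2) with h6 | h6
    · have : 3 * x ^ 2 - x ^ 4 / 2 ≤ 0 := by nlinarith
      exact this.trans (by positivity)
    · have h7 : 3 * x ^ 2 - x ^ 4 / 2 ≤ 9 / 2 := by nlinarith [sq_nonneg (x ^ 2 - 3)]
      have h8 : Real.exp (-(3 / 2 : ℝ)) ≤ Real.exp (-(x ^ 2 / 4)) :=
        Real.exp_le_exp.2 (by linarith)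
      have h9 : (9 / 44 : ℝ) ≤ Real.exp (-(3 / 2 : ℝ)) := by
        rw [Real.exp_neg, le_inv_comm₀ (by norm_num) (Real.exp_pos _)]
        have h10 : Real.exp (3 / 2 : ℝ) = Real.exp 1 * Real.exp (1 / 2) := by
          rw [← Real.exp_add]; norm_num
        have h11 : Real.exp (1 / 2 : ℝ) ^ 2 = Real.exp 1 := by
          rw [← Real.exp_nat_mul]; norm_num
        have h12 := Real.exp_one_lt_d9
        have h13 : Real.exp (1 / 2 : ℝ) ≤ 1.65 := by
          by_contra hcon
          push Not at hcon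
          have := Real.exp_pos (1 / 2 : ℝ)
          nlinarith
        rw [h10]
        have := Real.exp_pos (1 : ℝ)
        have := Real.exp_pos (1 / 2 : ℝ)
        nlinarith
      linarith
  have h0 : G 0 = 0 := by simp [hG, NN_zero]
  have h1 := hmono (mem_Ici.2 le_rfl) (mem_Ici.2 ha) ha
  rw [h0] at h1
  simp only [hG] at h1
  linarith

/-- the constant -/
noncomputable def cc (a₀ : ℝ) : ℝ := 11 * Real.exp (-(a₀ ^ 2 / 4))

lemma cc_pos (a₀ : ℝ) : 0 < cc a₀ := by unfold cc; positivity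

lemma cube_le' {a a₀ : ℝ} (h0 : 0 ≤ a₀) (h : a₀ ≤ a) : a ^ 3 * ph a ≤ cc a₀ * NN a := by
  have ha : 0 ≤ a := h0.trans h
  have h1 := cube_le ha
  have h2 : Real.exp (-(a ^ 2 / 4)) ≤ Real.exp (-(a₀ ^ 2 / 4)) := by
    apply Real.exp_le_exp.2
    nlinarith
  have e1 : ph a = (Real.sqrt (2 * Real.pi))⁻¹ *
      (Real.exp (-(a ^ 2 / 4)) * Real.exp (-(a ^ 2 / 4))) := by
    rw [ph_eq, ← Real.exp_add]; congr 2; ring
  calc a ^ 3 * ph a = ((Real.sqrt (2 * Real.pi))⁻¹ * (a ^ 3 * Real.exp (-(a ^ 2 / 4)))) *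
        Real.exp (-(a ^ 2 / 4)) := by rw [e1]; ring
    _ ≤ ((Real.sqrt (2 * Real.pi))⁻¹ * (a ^ 3 * Real.exp (-(a ^ 2 / 4)))) *
        Real.exp (-(a₀ ^ 2 / 4)) := mul_le_mul_of_nonneg_left h2 (by positivity)
    _ ≤ 11 * NN a * Real.exp (-(a₀ ^ 2 / 4)) :=
        mul_le_mul_of_nonneg_right h1 (Real.exp_pos _).le
    _ = cc a₀ * NN a := by unfold cc; ring

lemma NN_ratio {a b a₀ : ℝ} (h0 : 0 ≤ a₀) (h : a₀ ≤ a) (ha : 0 < a) (hab : a ≤ b) :
    NN b * Real.exp (cc a₀ / b ^ 2) ≤ NN a * Real.exp (cc a₀ / a ^ 2) := by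
  set c := cc a₀ with hc
  have hd : ∀ x : ℝ, 0 < x → HasDerivAt (fun x => NN x * Real.exp (c / x ^ 2))
      (2 * ph x * Real.exp (c / x ^ 2) + NN x * (Real.exp (c / x ^ 2) * (-(2 * c) / x ^ 3))) x := by
    intro x hx
    have h1 : HasDerivAt (fun x : ℝ => c / x ^ 2) (-(2 * c) / x ^ 3) x := by
      have h2 : HasDerivAt (fun x : ℝ => x ^ 2) (2 * x) x := by simpa using hasDerivAt_pow 2 x
      have := (hasDerivAt_const x c).div h2 (pow_ne_zero 2 hx.ne')
      refine this.congr_deriv ?_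
      field_simp
      ring
    exact (NN_deriv x).mul h1.exp
  have hanti : AntitoneOn (fun x => NN x * Real.exp (c / x ^ 2)) (Icc a b) := by
    apply antitoneOn_of_deriv_nonpos (convex_Icc a b)
      (fun x hx => (hd x (ha.trans_le hx.1)).continuousAt.continuousWithinAt)
      (fun x hx => by
        rw [interior_Icc] at hx
        exact (hd x (ha.trans hx.1)).differentiableAt.differentiableWithinAt)
    intro x hx
    rw [interior_Icc] at hx
    have hx0 : 0 < x := ha.trans hx.1
    rw [(hd x hx0).deriv]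
    have h1 := cube_le' h0 (h.trans hx.1.le)
    rw [← hc] at h1
    have e : 2 * ph x * Real.exp (c / x ^ 2) + NN x * (Real.exp (c / x ^ 2) * (-(2 * c) / x ^ 3)) =
        Real.exp (c / x ^ 2) * (2 / x ^ 3) * (x ^ 3 * ph x - c * NN x) := by
      field_simp
      ring
    rw [e]
    apply mul_nonpos_of_nonneg_of_nonpos (by positivity)
    linarith
  exact hanti (left_mem_Icc.2 hab) (right_mem_Icc.2 hab) hab

lemma one_le_NN {a a₀ : ℝ} (h0 : 0 ≤ a₀) (h : a₀ ≤ a) (ha : 0 < a) :
    1 ≤ NN a * Real.exp (cc a₀ / a ^ 2) := by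
  refine le_of_tendsto NN_tendsto ?_
  filter_upwards [eventually_ge_atTop a] with b hb
  refine le_trans ?_ (NN_ratio h0 h ha hb)
  have h1 : 0 ≤ NN b := (NN_pos (ha.trans_le hb)).le
  have h2 : 1 ≤ Real.exp (cc a₀ / b ^ 2) := Real.one_le_exp (div_nonneg (cc_pos _).le (sq_nonneg _))
  nlinarith

lemma gauss_scale {v : ℝ≥0} (hv : v ≠ 0) (K t : ℝ) :
    gaussianReal 0 v {w | |t + w| ≤ K} =
      gaussianReal 0 1 (Icc ((-K - t) / Real.sqrt v) ((K - t) / Real.sqrt v)) := by
  have hv0 : (0 : ℝ) < v := by exact_mod_cast pos_iff_ne_zero.2 hv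
  have hs : 0 < Real.sqrt v := Real.sqrt_pos.2 hv0
  have h1 : gaussianReal 0 v = (gaussianReal 0 1).map (Real.sqrt v * ·) := by
    rw [gaussianReal_map_const_mul]
    congr 1
    · simp
    · ext; simp [Real.sq_sqrt hv0.le]
  rw [h1, Measure.map_apply (by fun_prop)
    (measurableSet_le (by fun_prop) measurable_const)]
  congr 1
  ext z
  simp only [mem_preimage, mem_ofPred_eq, mem_Icc, abs_le, div_le_iff₀ hs, le_div_iff₀ hs]
  constructor <;> rintro ⟨h2, h3⟩ <;> constructor <;> linarith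

lemma gauss_centred {v : ℝ≥0} (hv : v ≠ 0) {K : ℝ} (hK : 0 ≤ K) :
    gaussianReal 0 v {w | |w| ≤ K} = ENNReal.ofReal (NN (K / Real.sqrt v)) := by
  have h := gauss_scale hv K 0
  simp only [zero_add, sub_zero] at h
  rw [h, neg_div, meas_Icc _ _ (by have : 0 ≤ K / Real.sqrt v := by positivity
                                   linarith)]
  rfl

/-- shifted intervals have smaller measure -/
lemma anderson1 (v : ℝ≥0) (K t : ℝ) :
    gaussianReal 0 v {w | |t + w| ≤ K} ≤ gaussianReal 0 v {w | |w| ≤ K} := by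
  rcases lt_or_ge K 0 with hK | hK
  · have : {w : ℝ | |t + w| ≤ K} = ∅ := by
      ext w; simp only [mem_ofPred_eq, mem_empty_iff_false, iff_false, not_le]
      exact hK.trans_le (abs_nonneg _)
    rw [this, measure_empty]; exact zero_le
  by_cases hv : v = 0
  · rw [hv, gaussianReal_zero_var]
    have h0 : (0 : ℝ) ∈ {w : ℝ | |w| ≤ K} := by simpa using hK
    rw [Measure.dirac_apply_of_mem h0]
    exact prob_le_one
  · wlog ht : 0 ≤ t with H
    · have h1 := H v K (-t) hK hv (by linarith)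
      have h2 : gaussianReal 0 v {w | |t + w| ≤ K} = gaussianReal 0 v {w | |-t + w| ≤ K} := by
        have h3 : (gaussianReal 0 v).map (fun w => -w) = gaussianReal 0 v := by
          rw [gaussianReal_map_neg]; simp
        conv_lhs => rw [← h3]
        rw [Measure.map_apply (by fun_prop) (measurableSet_le (by fun_prop) measurable_const)]
        congr 1
        ext w
        simp only [mem_preimage, mem_ofPred_eq]
        rw [← abs_neg, neg_add, neg_neg]
      rw [h2]; exact h1
    · have hv0 : (0 : ℝ) < v := by exact_mod_cast pos_iff_ne_zero.2 hv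
      have hs : 0 < Real.sqrt v := Real.sqrt_pos.2 hv0
      have h0 := gauss_scale hv K 0
      simp only [zero_add, sub_zero] at h0
      rw [gauss_scale hv, h0]
      set a := K / Real.sqrt v with ha
      set b := t / Real.sqrt v with hb
      have ha0 : 0 ≤ a := by positivity
      have hb0 : 0 ≤ b := by positivity
      have e1 : (-K - t) / Real.sqrt v = -a - b := by rw [ha, hb]; ring
      have e2 : (K - t) / Real.sqrt v = a - b := by rw [ha, hb]; ring
      have e3 : -K / Real.sqrt v = -a := by rw [ha]; ring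
      rw [e1, e2, e3, meas_Icc _ _ (by linarith), meas_Icc _ _ (by linarith)]
      apply ENNReal.ofReal_le_ofReal
      have k1 := intervalIntegral.integral_add_adjacent_intervals (ph_int (-a - b) (-a))
        (ph_int (-a) (a - b))
      have k2 := intervalIntegral.integral_add_adjacent_intervals (ph_int (-a) (a - b))
        (ph_int (a - b) a)
      have k3 : ∫ x in (-a - b)..(-a), ph x = ∫ x in (a - b)..a, ph (x - 2 * a) := by
        rw [intervalIntegral.integral_comp_sub_right (fun x => ph x) (2 * a)]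
        congr 1 <;> ring
      have k4 : ∫ x in (a - b)..a, ph (x - 2 * a) ≤ ∫ x in (a - b)..a, ph x := by
        apply intervalIntegral.integral_mono_on (by linarith)
          ((ph_cont.comp (continuous_id.sub continuous_const)).intervalIntegrable _ _) (ph_int _ _)
        intro x hx
        apply ph_mono
        show |x| ≤ |x - 2 * a|
        rw [abs_le]
        have : |x - 2 * a| = 2 * a - x := by
          rw [abs_sub_comm, abs_of_nonneg (by linarith [hx.2])]
        rw [this]
        constructor <;> linarith [hx.2]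
      linarith

/-- change of the variance -/
lemma var_ratio {v' v : ℝ≥0} (hvv : v' ≤ v) {K a₀ : ℝ} (hK : 0 < K) (h0 : 0 ≤ a₀)
    (hR : a₀ ^ 2 * v ≤ K ^ 2) :
    (gaussianReal 0 v').real {w | |w| ≤ K} ≤
      (gaussianReal 0 v).real {w | |w| ≤ K} * Real.exp (cc a₀ * ((v : ℝ) - v') / K ^ 2) := by
  by_cases hv : v = 0
  · have hv' : v' = 0 := le_antisymm (hv ▸ hvv) zero_le
    rw [hv, hv']; simp
  have hv0 : (0 : ℝ) < v := by exact_mod_cast pos_iff_ne_zero.2 hv
  have hs : 0 < Real.sqrt v := Real.sqrt_pos.2 hv0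
  set a := K / Real.sqrt v with ha
  have ha0 : 0 < a := by positivity
  have ha2 : a ^ 2 = K ^ 2 / v := by rw [ha, div_pow, Real.sq_sqrt hv0.le]
  have haa : a₀ ≤ a := by
    apply le_of_sq_le_sq _ ha0.le
    rw [ha2, le_div_iff₀ hv0]; exact hR
  have e1 : (gaussianReal 0 v).real {w | |w| ≤ K} = NN a := by
    rw [Measure.real, gauss_centred hv hK.le, ENNReal.toReal_ofReal (NN_pos ha0).le]
  rw [e1]
  have hca : cc a₀ / a ^ 2 = cc a₀ * v / K ^ 2 := by
    rw [ha2]; field_simp
  by_cases hv' : v' = 0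
  · have h1 : (gaussianReal 0 v').real {w | |w| ≤ K} ≤ 1 := measureReal_le_one
    refine h1.trans ?_
    rw [hv']
    have := one_le_NN h0 haa ha0
    rw [hca] at this
    simpa using this
  · have hv0' : (0 : ℝ) < v' := by exact_mod_cast pos_iff_ne_zero.2 hv'
    have hs' : 0 < Real.sqrt v' := Real.sqrt_pos.2 hv0'
    set b := K / Real.sqrt v' with hb
    have hb0 : 0 < b := by positivity
    have hb2 : b ^ 2 = K ^ 2 / v' := by rw [hb, div_pow, Real.sq_sqrt hv0'.le]
    have hab : a ≤ b := by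
      rw [ha, hb]
      apply div_le_div_of_nonneg_left hK.le hs'
      exact Real.sqrt_le_sqrt (by exact_mod_cast hvv)
    have e2 : (gaussianReal 0 v').real {w | |w| ≤ K} = NN b := by
      rw [Measure.real, gauss_centred hv' hK.le, ENNReal.toReal_ofReal (NN_pos hb0).le]
    rw [e2]
    have h1 := NN_ratio h0 haa ha0 hab
    have hcb : cc a₀ / b ^ 2 = cc a₀ * v' / K ^ 2 := by
      rw [hb2]; field_simp
    rw [hca, hcb] at h1
    have e3 : cc a₀ * ((v : ℝ) - v') / K ^ 2 = cc a₀ * v / K ^ 2 - cc a₀ * v' / K ^ 2 := by ring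
    rw [e3, Real.exp_sub, ← mul_div_assoc, le_div_iff₀ (Real.exp_pos _)]
    exact h1

end Pool.Agent.Y339.KG
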