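import Mathlib
import Pool.Agent.Y339.KG.Gauss

/-!
# Two linear functionals of a standard Gaussian vector
-/

set_option autoImplicit false

namespace Pool.Agent.Y339.KG

open MeasureTheory ProbabilityTheory Set Filter
open scoped ENNReal NNReal Topology InnerProductSpace

section row

variable {E : Type*} [NormedAddCommGroup E] [InnerProductSpace ℝ E] [FiniteDimensional ℝ E]
  [MeasurableSpace E] [BorelSpace E]

/-- slab -/
def slab (u : E) (K : ℝ) : Set E := {g | |⟪u, g⟫_ℝ| ≤ K}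

lemma slab_meas (u : E) (K : ℝ) : MeasurableSet (slab u K) :=
  measurableSet_le (by fun_prop) measurable_const

lemma map_inner (u : E) :
    (stdGaussian E).map (fun x => ⟪u, x⟫_ℝ) = gaussianReal 0 (‖u‖₊ ^ 2) := by
  have h := IsGaussian.map_eq_gaussianReal (μ := stdGaussian E) (innerSL ℝ u)
  rw [integral_strongDual_stdGaussian, variance_dual_stdGaussian, innerSL_apply_norm] at h
  have h2 : (‖u‖ ^ 2).toNNReal = ‖u‖₊ ^ 2 := by
    ext
    rw [Real.coe_toNNReal _ (sq_nonneg _)]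
    simp
  rw [h2] at h
  exact h

lemma slab_eq (u : E) (K : ℝ) :
    (stdGaussian E) (slab u K) = gaussianReal 0 (‖u‖₊ ^ 2) {w | |w| ≤ K} := by
  rw [← map_inner u, Measure.map_apply (by fun_prop) (measurableSet_le (by fun_prop) measurable_const)]
  rfl

lemma indep_inner {u r : E} (h : ⟪u, r⟫_ℝ = 0) :
    IndepFun (fun x => ⟪u, x⟫_ℝ) (fun x => ⟪r, x⟫_ℝ) (stdGaussian E) := by
  apply HasGaussianLaw.indepFun_of_covariance_eq_zero
  · constructor
    have : (fun ω : E => (⟪u, ω⟫_ℝ, ⟪r, ω⟫_ℝ)) = ⇑((innerSL ℝ u).prod (innerSL ℝ r)) := by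
      funext ω; rfl
    rw [this]
    infer_instance
  · rw [← covarianceBilin_apply_eq_cov IsGaussian.memLp_two_id, covarianceBilin_stdGaussian]
    exact h

/-- **Correlation inequality.** -/
lemma row_ineq {u u' : E} {K a₀ : ℝ} (hK : 0 < K) (h0 : 0 ≤ a₀) (hR : a₀ ^ 2 * ‖u‖ ^ 2 ≤ K ^ 2) :
    (stdGaussian E).real (slab u' K ∩ slab u K) ≤
      (stdGaussian E).real (slab u' K) * (stdGaussian E).real (slab u K) *
        Real.exp (cc a₀ * ⟪u, ‖u'‖⁻¹ • u'⟫_ℝ ^ 2 / K ^ 2) := by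
  set γ := stdGaussian E with hγ
  by_cases hu' : u' = 0
  · have h1 : slab u' K = univ := by
      ext g; simp [slab, hu', hK.le]
    rw [h1, univ_inter, hu']
    simp
  have hn : ‖u'‖ ≠ 0 := norm_ne_zero_iff.2 hu'
  set α := ⟪u, u'⟫_ℝ / ‖u'‖ ^ 2 with hα
  set r := u - α • u' with hr
  have hur : ⟪u', r⟫_ℝ = 0 := by
    rw [hr, inner_sub_right, inner_smul_right, real_inner_self_eq_norm_sq, hα,
      real_inner_comm u' u]
    field_simp
    ring
  have hu : u = α • u' + r := by rw [hr]; abel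
  have hproj : ⟪u, ‖u'‖⁻¹ • u'⟫_ℝ ^ 2 = ‖u‖ ^ 2 - ‖r‖ ^ 2 := by
    have h1 : ‖u‖ ^ 2 = α ^ 2 * ‖u'‖ ^ 2 + ‖r‖ ^ 2 := by
      conv_lhs => rw [hu]
      rw [norm_add_sq_real, inner_smul_left, hur, norm_smul, mul_pow, Real.norm_eq_abs, sq_abs]
      simp
    rw [inner_smul_right, h1, hα]
    field_simp
    ring
  -- the product structure
  have hind := indep_inner hur
  have hprod := (indepFun_iff_map_prod_eq_prod_map_map (by fun_prop) (by fun_prop)).1 hind
  set S : Set (ℝ × ℝ) := {p | |p.1| ≤ K ∧ |α * p.1 + p.2| ≤ K} with hS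
  have hSm : MeasurableSet S :=
    (measurableSet_le (f := fun p : ℝ × ℝ => |p.1|) (g := fun _ => K) (by fun_prop)
      (by fun_prop)).inter (measurableSet_le (f := fun p : ℝ × ℝ => |α * p.1 + p.2|)
      (g := fun _ => K) (by fun_prop) (by fun_prop))
  have hpre : slab u' K ∩ slab u K = (fun x : E => (⟪u', x⟫_ℝ, ⟪r, x⟫_ℝ)) ⁻¹' S := by
    ext g
    simp only [slab, mem_inter_iff, mem_ofPred_eq, mem_preimage, hS]
    have : ⟪u, g⟫_ℝ = α * ⟪u', g⟫_ℝ + ⟪r, g⟫_ℝ := by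
      conv_lhs => rw [hu]
      rw [inner_add_left, inner_smul_left]; simp
    rw [this]
  have hm1 : γ (slab u' K ∩ slab u K) =
      ((γ.map (fun x => ⟪u', x⟫_ℝ)).prod (γ.map (fun x => ⟪r, x⟫_ℝ))) S := by
    rw [← hprod, hpre, Measure.map_apply (by fun_prop) hSm]
  have hle : γ (slab u' K ∩ slab u K) ≤
      gaussianReal 0 (‖r‖₊ ^ 2) {w | |w| ≤ K} * γ (slab u' K) := by
    rw [hm1, map_inner, map_inner, Measure.prod_apply hSm]
    have h1 : ∀ x : ℝ, gaussianReal 0 (‖r‖₊ ^ 2) (Prod.mk x ⁻¹' S) ≤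
        {x : ℝ | |x| ≤ K}.indicator (fun _ => gaussianReal 0 (‖r‖₊ ^ 2) {w | |w| ≤ K}) x := by
      intro x
      by_cases hx : |x| ≤ K
      · rw [indicator_of_mem (show x ∈ {x : ℝ | |x| ≤ K} from hx)]
        refine le_trans (measure_mono ?_) (anderson1 _ K (α * x))
        intro w hw
        exact hw.2
      · rw [indicator_of_notMem (show x ∉ {x : ℝ | |x| ≤ K} from hx)]
        have : Prod.mk x ⁻¹' S = ∅ := by
          ext w
          simp only [mem_preimage, hS, mem_ofPred_eq, mem_empty_iff_false, iff_false]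
          exact fun h => hx h.1
        rw [this, measure_empty]
    refine (lintegral_mono h1).trans ?_
    rw [lintegral_indicator_const (measurableSet_le (by fun_prop) measurable_const), slab_eq]
  have hle2 : γ.real (slab u' K ∩ slab u K) ≤
      (gaussianReal 0 (‖r‖₊ ^ 2)).real {w | |w| ≤ K} * γ.real (slab u' K) := by
    rw [Measure.real, Measure.real, Measure.real, ← ENNReal.toReal_mul]
    exact ENNReal.toReal_mono (ENNReal.mul_ne_top (measure_ne_top _ _) (measure_ne_top _ _)) hle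
  have hvv : ‖r‖₊ ^ 2 ≤ ‖u‖₊ ^ 2 := by
    have : ‖r‖ ^ 2 ≤ ‖u‖ ^ 2 := by
      have := sq_nonneg ⟪u, ‖u'‖⁻¹ • u'⟫_ℝ
      linarith
    exact_mod_cast this
  have hv := var_ratio hvv hK h0 (by push_cast; exact hR)
  have hreal : γ.real (slab u K) = (gaussianReal 0 (‖u‖₊ ^ 2)).real {w | |w| ≤ K} := by
    rw [Measure.real, Measure.real, slab_eq]
  rw [← hreal] at hv
  push_cast at hv
  rw [hproj]
  calc γ.real (slab u' K ∩ slab u K)
      ≤ (gaussianReal 0 (‖r‖₊ ^ 2)).real {w | |w| ≤ K} * γ.real (slab u' K) := hle2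
    _ ≤ (γ.real (slab u K) * Real.exp (cc a₀ * (‖u‖ ^ 2 - ‖r‖ ^ 2) / K ^ 2)) *
        γ.real (slab u' K) := mul_le_mul_of_nonneg_right hv measureReal_nonneg
    _ = _ := by ring

lemma slab_pos {u : E} {K : ℝ} (hK : 0 < K) : 0 < (stdGaussian E).real (slab u K) := by
  rw [Measure.real, slab_eq]
  by_cases h : ‖u‖₊ ^ 2 = 0
  · rw [h, gaussianReal_zero_var, Measure.dirac_apply_of_mem (by simpa using hK.le)]
    simp
  · rw [gauss_centred h hK.le]
    have hv0 : (0 : ℝ) < ((‖u‖₊ ^ 2 : ℝ≥0) : ℝ) := by exact_mod_cast pos_iff_ne_zero.2 h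
    have := NN_pos (a := K / Real.sqrt ((‖u‖₊ ^ 2 : ℝ≥0) : ℝ)) (by positivity)
    rw [ENNReal.toReal_ofReal this.le]
    exact this

end row

end Pool.Agent.Y339.KG
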