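import Mathlib

/-!
# The potential of one coordinate of the walk
-/

set_option autoImplicit false

namespace Pool.Agent.Y339.KG

/-- the potential for small slopes -/
noncomputable def hS (y l q : ℝ) : ℝ := 400 * l ^ 2 / (q + 7 + y ^ 2)

/-- the potential for large slopes -/
noncomputable def hL (y l q : ℝ) : ℝ := |l| - l * y + (1 - q) / 400

/-- the potential -/
noncomputable def hh (y l q : ℝ) : ℝ := min (hS y l q) (hL y l q)

lemma hS_nonneg {y l q : ℝ} (hq : 0 ≤ q) : 0 ≤ hS y l q := by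
  unfold hS; positivity

lemma hL_nonneg {y l q : ℝ} (hy : |y| ≤ 1) (hq : q ≤ 1) : 0 ≤ hL y l q := by
  unfold hL
  have h1 : l * y ≤ |l| := by
    calc l * y ≤ |l * y| := le_abs_self _
      _ = |l| * |y| := abs_mul _ _
      _ ≤ |l| * 1 := mul_le_mul_of_nonneg_left hy (abs_nonneg _)
      _ = |l| := mul_one _
  have h2 : 0 ≤ (1 - q) / 400 := by linarith
  linarith

lemma hh_nonneg {y l q : ℝ} (hy : |y| ≤ 1) (hq0 : 0 ≤ q) (hq : q ≤ 1) : 0 ≤ hh y l q :=
  le_min (hS_nonneg hq0) (hL_nonneg hy hq)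

lemma hS_step {y l q b r e : ℝ} (hq : 0 ≤ q) (hr : 0 ≤ r) (he : 0 ≤ e) (hb : b ^ 2 ≤ r * e) :
    hS y (l + b) (q + r) ≤ hS y l q + 400 * e := by
  unfold hS
  set A := q + 7 + y ^ 2 with hA
  have hA0 : 0 < A := by positivity
  have e1 : q + r + 7 + y ^ 2 = A + r := by rw [hA]; ring
  rw [e1]
  have key : 2 * l * b * A ≤ A ^ 2 * e + r * l ^ 2 := by
    rcases he.eq_or_lt with h0 | h0
    · rw [← h0] at hb ⊢
      have : b = 0 := by
        have : b ^ 2 ≤ 0 := by simpa using hb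
        exact pow_eq_zero_iff (two_ne_zero) |>.1 (le_antisymm this (sq_nonneg b))
      rw [this]; simp; positivity
    · have h1 : 0 ≤ e * (A ^ 2 * e + r * l ^ 2 - 2 * l * b * A) := by
        nlinarith [sq_nonneg (A * e - b * l), mul_le_mul_of_nonneg_right hb (sq_nonneg l)]
      have h2 := nonneg_of_mul_nonneg_right h1 h0
      linarith
  rw [div_le_iff₀ (by positivity)]
  have h3 : 400 * l ^ 2 / A * (A + r) = 400 * l ^ 2 + 400 * (r * l ^ 2) / A := by
    field_simp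
  have h4 : (400 * l ^ 2 / A + 400 * e) * (A + r) =
      400 * l ^ 2 + 400 * (r * l ^ 2) / A + 400 * e * (A + r) := by
    rw [add_mul, h3]
  rw [h4]
  have h5 : 2 * l * b ≤ (A ^ 2 * e + r * l ^ 2) / A := by
    rw [le_div_iff₀ hA0]; linarith
  have h6 : (A ^ 2 * e + r * l ^ 2) / A = A * e + r * l ^ 2 / A := by
    field_simp
  rw [h6] at h5
  have h7 : 400 * (r * l ^ 2) / A = 400 * (r * l ^ 2 / A) := by ring
  rw [h7]
  nlinarith [h5, hb]

lemma hL_step {y l q b r e : ℝ} (hy : |y| ≤ 1) (hr : 0 ≤ r) (he : 0 ≤ e) (hb : b ^ 2 ≤ r * e) :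
    hL y (l + b) (q + r) ≤ hL y l q + 400 * e := by
  unfold hL
  have h1 : |l + b| ≤ |l| + |b| := abs_add_le _ _
  have h2 : -(b * y) ≤ |b| := by
    calc -(b * y) ≤ |b * y| := neg_le_abs _
      _ = |b| * |y| := abs_mul _ _
      _ ≤ |b| * 1 := mul_le_mul_of_nonneg_left hy (abs_nonneg _)
      _ = |b| := mul_one _
  have h3 : |b| ≤ (r / 400 + 400 * e) / 2 := by
    apply abs_le_of_sq_le_sq _ (by positivity)
    nlinarith [sq_nonneg (r / 400 - 400 * e)]
  nlinarith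

lemma hh_step {y l q b r e : ℝ} (hy : |y| ≤ 1) (hq : 0 ≤ q) (hr : 0 ≤ r) (he : 0 ≤ e)
    (hb : b ^ 2 ≤ r * e) : hh y (l + b) (q + r) ≤ hh y l q + 400 * e := by
  unfold hh
  rw [← min_add_add_right]
  exact min_le_min (hS_step hq hr he hb) (hL_step hy hr he hb)

lemma hh_le {y l q E : ℝ} (hq : 0 ≤ q) (hE : 0 ≤ E) (hl : l ^ 2 ≤ q * E) : hh y l q ≤ 400 * E := by
  refine (min_le_left _ _).trans ?_
  unfold hS
  rw [div_le_iff₀ (by positivity)]
  nlinarith [mul_nonneg hE (sq_nonneg y)]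

lemma FS_concave {l q : ℝ} (hl : |l| ≤ 1 / 10) (hq0 : 0 ≤ q) (hq : q ≤ 1) :
    ConcaveOn ℝ (Set.Icc (-1 : ℝ) 1) (fun y => Real.exp (l * y + hS y l q)) := by
  have hD : ∀ y : ℝ, 0 < q + 7 + y ^ 2 := fun y => by positivity
  have d0 : ∀ y : ℝ, HasDerivAt (fun y => q + 7 + y ^ 2) (2 * y) y := by
    intro y
    have := (hasDerivAt_pow 2 y).const_add (q + 7)
    simpa using this
  have d1 : ∀ y : ℝ, HasDerivAt (fun y => l * y + hS y l q)
      (l - 800 * l ^ 2 * y / (q + 7 + y ^ 2) ^ 2) y := by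
    intro y
    have h1 : HasDerivAt (fun y : ℝ => l * y) l y := by
      simpa using (hasDerivAt_id y).const_mul l
    have h2 : HasDerivAt (fun y : ℝ => 400 * l ^ 2 / (q + 7 + y ^ 2))
        (-(400 * l ^ 2 * (2 * y)) / (q + 7 + y ^ 2) ^ 2) y := by
      have := (hasDerivAt_const y (400 * l ^ 2)).div (d0 y) (hD y).ne'
      exact this.congr_deriv (by ring)
    have h3 := h1.add h2
    unfold hS
    exact h3.congr_deriv (by ring)
  have d2 : ∀ y : ℝ, HasDerivAt (fun y : ℝ => l - 800 * l ^ 2 * y / (q + 7 + y ^ 2) ^ 2)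
      (-(800 * l ^ 2) / (q + 7 + y ^ 2) ^ 2 + 3200 * l ^ 2 * y ^ 2 / (q + 7 + y ^ 2) ^ 3) y := by
    intro y
    have h1 : HasDerivAt (fun y : ℝ => 800 * l ^ 2 * y) (800 * l ^ 2) y := by
      simpa using (hasDerivAt_id y).const_mul (800 * l ^ 2)
    have h2 : HasDerivAt (fun y => (q + 7 + y ^ 2) ^ 2) (4 * y * (q + 7 + y ^ 2)) y := by
      have := (d0 y).pow 2
      exact this.congr_deriv (by push_cast; ring)
    have h3 := (h1.div h2 (pow_ne_zero 2 (hD y).ne')).const_sub l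
    refine h3.congr_deriv ?_
    have := (hD y).ne'
    field_simp
    ring
  have f1 : ∀ y : ℝ, HasDerivAt (fun y => Real.exp (l * y + hS y l q))
      (Real.exp (l * y + hS y l q) * (l - 800 * l ^ 2 * y / (q + 7 + y ^ 2) ^ 2)) y :=
    fun y => (d1 y).exp
  have f2 : ∀ y : ℝ, HasDerivAt
      (fun y => Real.exp (l * y + hS y l q) * (l - 800 * l ^ 2 * y / (q + 7 + y ^ 2) ^ 2))
      (Real.exp (l * y + hS y l q) * (l - 800 * l ^ 2 * y / (q + 7 + y ^ 2) ^ 2) *
        (l - 800 * l ^ 2 * y / (q + 7 + y ^ 2) ^ 2) + Real.exp (l * y + hS y l q) *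
        (-(800 * l ^ 2) / (q + 7 + y ^ 2) ^ 2 + 3200 * l ^ 2 * y ^ 2 / (q + 7 + y ^ 2) ^ 3)) y :=
    fun y => (f1 y).mul (d2 y)
  refine concaveOn_of_hasDerivWithinAt2_nonpos (convex_Icc _ _)
    (fun y _ => (f1 y).continuousAt.continuousWithinAt)
    (f' := fun y => Real.exp (l * y + hS y l q) * (l - 800 * l ^ 2 * y / (q + 7 + y ^ 2) ^ 2))
    (f'' := fun y => Real.exp (l * y + hS y l q) * (l - 800 * l ^ 2 * y / (q + 7 + y ^ 2) ^ 2) *
        (l - 800 * l ^ 2 * y / (q + 7 + y ^ 2) ^ 2) + Real.exp (l * y + hS y l q) *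
        (-(800 * l ^ 2) / (q + 7 + y ^ 2) ^ 2 + 3200 * l ^ 2 * y ^ 2 / (q + 7 + y ^ 2) ^ 3))
    (fun y _ => (f1 y).hasDerivWithinAt) (fun y _ => (f2 y).hasDerivWithinAt) ?_
  intro y hy
  rw [interior_Icc, Set.mem_Ioo] at hy
  set D := q + 7 + y ^ 2 with hDdef
  have hD0 : 0 < D := hD y
  have hy2 : y ^ 2 ≤ 1 := by nlinarith
  have hy1 : |y| ≤ 1 := abs_le.2 ⟨hy.1.le, hy.2.le⟩
  have hDl : 7 ≤ D := by rw [hDdef]; nlinarith [sq_nonneg y]
  have hDu : D ≤ 9 := by rw [hDdef]; linarith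
  have h8 : 8 * y ^ 2 ≤ D := by rw [hDdef]; nlinarith
  have hly : |l * y| ≤ 1 / 10 := by
    rw [abs_mul]
    calc |l| * |y| ≤ 1 / 10 * 1 := mul_le_mul hl hy1 (abs_nonneg _) (by norm_num)
      _ = 1 / 10 := mul_one _
  have hly' := abs_le.1 hly
  have k1 : D ^ 2 + 80 ≤ 20 * D := by nlinarith
  have k2 : (D ^ 2 - 800 * (l * y)) ^ 2 ≤ (20 * D) ^ 2 := by
    apply sq_le_sq'
    · nlinarith
    · nlinarith
  have k3 : (20 * D) ^ 2 ≤ 800 * D ^ 2 - 3200 * y ^ 2 * D := by nlinarith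
  have k4 : (l - 800 * l ^ 2 * y / D ^ 2) ^ 2 +
      (-(800 * l ^ 2) / D ^ 2 + 3200 * l ^ 2 * y ^ 2 / D ^ 3) =
      l ^ 2 * ((D ^ 2 - 800 * (l * y)) ^ 2 - (800 * D ^ 2 - 3200 * y ^ 2 * D)) / D ^ 4 := by
    field_simp
    ring
  have k5 : l ^ 2 * ((D ^ 2 - 800 * (l * y)) ^ 2 - (800 * D ^ 2 - 3200 * y ^ 2 * D)) / D ^ 4 ≤ 0 := by
    apply div_nonpos_of_nonpos_of_nonneg _ (by positivity)
    apply mul_nonpos_of_nonneg_of_nonpos (sq_nonneg l)
    linarith
  have k6 : Real.exp (l * y + hS y l q) * (l - 800 * l ^ 2 * y / D ^ 2) *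
        (l - 800 * l ^ 2 * y / D ^ 2) + Real.exp (l * y + hS y l q) *
        (-(800 * l ^ 2) / D ^ 2 + 3200 * l ^ 2 * y ^ 2 / D ^ 3) =
      Real.exp (l * y + hS y l q) * ((l - 800 * l ^ 2 * y / D ^ 2) ^ 2 +
      (-(800 * l ^ 2) / D ^ 2 + 3200 * l ^ 2 * y ^ 2 / D ^ 3)) := by ring
  show Real.exp (l * y + hS y l q) * (l - 800 * l ^ 2 * y / D ^ 2) *
        (l - 800 * l ^ 2 * y / D ^ 2) + Real.exp (l * y + hS y l q) *
        (-(800 * l ^ 2) / D ^ 2 + 3200 * l ^ 2 * y ^ 2 / D ^ 3) ≤ 0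
  rw [k6, k4]
  exact mul_nonpos_of_nonneg_of_nonpos (Real.exp_pos _).le k5

lemma hL_le_hS {y l q : ℝ} (hl : 1 / 10 ≤ |l|) (hy : |y| ≤ 1) (hq0 : 0 ≤ q) (hq : q ≤ 1) :
    hL y l q ≤ hS y l q := by
  unfold hL hS
  have hy2 : y ^ 2 ≤ 1 := by
    have := abs_le.1 hy
    nlinarith
  have h1 : -(l * y) ≤ |l| := by
    calc -(l * y) ≤ |l * y| := neg_le_abs _
      _ = |l| * |y| := abs_mul _ _
      _ ≤ |l| * 1 := mul_le_mul_of_nonneg_left hy (abs_nonneg _)
      _ = |l| := mul_one _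
  have h2 : 400 * l ^ 2 / 9 ≤ 400 * l ^ 2 / (q + 7 + y ^ 2) := by
    apply div_le_div_of_nonneg_left (by positivity) (by positivity)
    linarith
  have h3 : 2 * |l| + 1 / 400 ≤ 400 * l ^ 2 / 9 := by
    rw [← sq_abs l]
    nlinarith
  linarith

/-- the potential is compatible with a martingale step of the coordinate -/
lemma hh_mart {l q a b y1 y2 : ℝ} (hq0 : 0 ≤ q) (hq : q ≤ 1) (ha : 0 ≤ a) (hb : 0 ≤ b)
    (hab : a + b = 1) (h1 : |y1| ≤ 1) (h2 : |y2| ≤ 1) :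
    a * Real.exp (l * (y1 - (a * y1 + b * y2)) + hh y1 l q) +
      b * Real.exp (l * (y2 - (a * y1 + b * y2)) + hh y2 l q) ≤
      Real.exp (hh (a * y1 + b * y2) l q) := by
  set y := a * y1 + b * y2 with hy
  have hy1 : |y| ≤ 1 := by
    rw [abs_le] at h1 h2 ⊢
    constructor <;> nlinarith
  -- the large potential
  have hLL : a * Real.exp (l * (y1 - y) + hL y1 l q) + b * Real.exp (l * (y2 - y) + hL y2 l q) =
      Real.exp (hL y l q) := by
    have e1 : l * (y1 - y) + hL y1 l q = hL y l q := by unfold hL; ring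
    have e2 : l * (y2 - y) + hL y2 l q = hL y l q := by unfold hL; ring
    rw [e1, e2, ← add_mul, hab, one_mul]
  have hmL : a * Real.exp (l * (y1 - y) + hh y1 l q) + b * Real.exp (l * (y2 - y) + hh y2 l q) ≤
      Real.exp (hL y l q) := by
    rw [← hLL]
    refine add_le_add (mul_le_mul_of_nonneg_left (Real.exp_le_exp.2 ?_) ha)
      (mul_le_mul_of_nonneg_left (Real.exp_le_exp.2 ?_) hb)
    · exact add_le_add_right (min_le_right _ _) _
    · exact add_le_add_right (min_le_right _ _) _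
  rcases le_total |l| (1 / 10) with hl | hl
  · have hc := FS_concave hl hq0 hq
    have hc2 := hc.2 (abs_le.1 h1) (abs_le.1 h2) ha hb hab
    simp only [smul_eq_mul] at hc2
    rw [← hy] at hc2
    have hmS : a * Real.exp (l * (y1 - y) + hh y1 l q) + b * Real.exp (l * (y2 - y) + hh y2 l q) ≤
        Real.exp (hS y l q) := by
      have e0 : ∀ z : ℝ, Real.exp (l * (z - y) + hS z l q) =
          Real.exp (l * z + hS z l q) * Real.exp (-(l * y)) := by
        intro z; rw [← Real.exp_add]; congr 1; ring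
      have e3 : Real.exp (hS y l q) = Real.exp (l * y + hS y l q) * Real.exp (-(l * y)) := by
        rw [← Real.exp_add]; congr 1; ring
      calc a * Real.exp (l * (y1 - y) + hh y1 l q) + b * Real.exp (l * (y2 - y) + hh y2 l q)
          ≤ a * Real.exp (l * (y1 - y) + hS y1 l q) + b * Real.exp (l * (y2 - y) + hS y2 l q) := by
            refine add_le_add (mul_le_mul_of_nonneg_left (Real.exp_le_exp.2 ?_) ha)
              (mul_le_mul_of_nonneg_left (Real.exp_le_exp.2 ?_) hb)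
            · exact add_le_add_right (min_le_left _ _) _
            · exact add_le_add_right (min_le_left _ _) _
        _ = (a * Real.exp (l * y1 + hS y1 l q) + b * Real.exp (l * y2 + hS y2 l q)) *
              Real.exp (-(l * y)) := by rw [e0, e0]; ring
        _ ≤ Real.exp (l * y + hS y l q) * Real.exp (-(l * y)) :=
            mul_le_mul_of_nonneg_right hc2 (Real.exp_pos _).le
        _ = Real.exp (hS y l q) := e3.symm
    unfold hh at hmS hmL ⊢
    rcases le_total (hS y l q) (hL y l q) with h | h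
    · rw [min_eq_left h]; exact hmS
    · rw [min_eq_right h]; exact hmL
  · have h3 : hh y l q = hL y l q := min_eq_right (hL_le_hS hl hy1 hq0 hq)
    rw [h3]; exact hmL

end Pool.Agent.Y339.KG
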