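import Mathlib
import Pool.Agent.Y339.KG.Pot

/-!
# A subgaussian signing of arbitrary vectors of norm at most one

A random walk as in the Gram-Schmidt walk of Bansal, Dadush, Garg and Lovett, with a potential
which gives a short proof of the subgaussian bound (with a worse constant).
-/

set_option autoImplicit false
set_option linter.unusedSectionVars false

namespace Pool.Agent.Y339.KG

open Finset
open scoped InnerProductSpace

section walk

variable {E : Type*} [NormedAddCommGroup E] [InnerProductSpace ℝ E] [FiniteDimensional ℝ E]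

/-- energy of `θ` in a subspace -/
noncomputable def en (U : Submodule ℝ E) (θ : E) : ℝ := ‖U.starProjection θ‖ ^ 2

lemma en_le (U : Submodule ℝ E) (θ : E) : en U θ ≤ ‖θ‖ ^ 2 := by
  unfold en
  exact pow_le_pow_left₀ (norm_nonneg _) (Submodule.norm_starProjection_apply_le _ _) 2

lemma en_nonneg (U : Submodule ℝ E) (θ : E) : 0 ≤ en U θ := sq_nonneg _

lemma en_sub {U' U : Submodule ℝ E} (hU : U' ≤ U) (θ : E) :
    ‖U.starProjection θ - U'.starProjection θ‖ ^ 2 = en U θ - en U' θ := by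
  have h1 : U.starProjection θ - U'.starProjection θ ∈ U'ᗮ := by
    have h2 : U.starProjection θ - U'.starProjection θ =
        (θ - U'.starProjection θ) - (θ - U.starProjection θ) := by abel
    rw [h2]
    exact Submodule.sub_mem _ (Submodule.sub_starProjection_mem_orthogonal θ)
      (Submodule.orthogonal_le hU (Submodule.sub_starProjection_mem_orthogonal θ))
  have h3 : ⟪U'.starProjection θ, U.starProjection θ - U'.starProjection θ⟫_ℝ = 0 :=
    h1 _ (Submodule.starProjection_apply_mem _ _)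
  have h4 : U.starProjection θ = U'.starProjection θ +
      (U.starProjection θ - U'.starProjection θ) := by abel
  unfold en
  have h5 : ‖U.starProjection θ‖ ^ 2 = ‖U'.starProjection θ‖ ^ 2 +
      ‖U.starProjection θ - U'.starProjection θ‖ ^ 2 := by
    conv_lhs => rw [h4]
    rw [norm_add_sq_real, h3]
    ring
  linarith

lemma en_mono {U' U : Submodule ℝ E} (hU : U' ≤ U) (θ : E) : en U' θ ≤ en U θ := by
  have := en_sub hU θ
  have := sq_nonneg ‖U.starProjection θ - U'.starProjection θ‖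
  linarith

lemma en_energy {U' U : Submodule ℝ E} (hU : U' ≤ U) {b : E} (hb : b ∈ U) (hb' : b ∈ U'ᗮ)
    (θ : E) : ⟪θ, b⟫_ℝ ^ 2 ≤ ‖b‖ ^ 2 * (en U θ - en U' θ) := by
  have h1 : ⟪θ - U.starProjection θ, b⟫_ℝ = 0 := by
    have := Submodule.sub_starProjection_mem_orthogonal (K := U) θ
    rw [real_inner_comm]
    exact this b hb
  have h2 : ⟪U'.starProjection θ, b⟫_ℝ = 0 := hb' _ (Submodule.starProjection_apply_mem _ _)
  have h3 : ⟪θ, b⟫_ℝ = ⟪U.starProjection θ - U'.starProjection θ, b⟫_ℝ := by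
    rw [inner_sub_left, h2, sub_zero]
    rw [inner_sub_left] at h1
    linarith
  rw [h3, ← en_sub hU]
  have h4 := abs_real_inner_le_norm (U.starProjection θ - U'.starProjection θ) b
  rw [← sq_abs]
  calc |⟪U.starProjection θ - U'.starProjection θ, b⟫_ℝ| ^ 2
      ≤ (‖U.starProjection θ - U'.starProjection θ‖ * ‖b‖) ^ 2 :=
        pow_le_pow_left₀ (abs_nonneg _) h4 2
    _ = ‖b‖ ^ 2 * ‖U.starProjection θ - U'.starProjection θ‖ ^ 2 := by ring

variable {ι : Type*} [Fintype ι] [DecidableEq ι]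

/-- sign of a bit -/
def sg (b : Bool) : ℝ := if b then 1 else -1

lemma sg_eq (b : Bool) : sg b = 1 ∨ sg b = -1 := by cases b <;> simp [sg]

/-- displacement from `x` to the signs `b` -/
noncomputable def disp (v : ι → E) (x : ι → ℝ) (b : ι → Bool) : E := ∑ i, (sg (b i) - x i) • v i

/-- there is a distribution on the signs for which the exponential moments of the displacement are
bounded by `exp (B θ)` -/
def Good (v : ι → E) (x : ι → ℝ) (B : E → ℝ) : Prop :=
  ∃ w : (ι → Bool) → ℝ, (∀ b, 0 ≤ w b) ∧ ∑ b, w b = 1 ∧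
    ∀ θ : E, ∑ b, w b * Real.exp ⟪θ, disp v x b⟫_ℝ ≤ Real.exp (B θ)

lemma Good.mono {v : ι → E} {x : ι → ℝ} {B B' : E → ℝ} (h : Good v x B)
    (hB : ∀ θ, B θ ≤ B' θ) : Good v x B' := by
  obtain ⟨w, h1, h2, h3⟩ := h
  exact ⟨w, h1, h2, fun θ => (h3 θ).trans (Real.exp_le_exp.2 (hB θ))⟩

/-- span of the vectors in `A` -/
def sp (v : ι → E) (A : Finset ι) : Submodule ℝ E := Submodule.span ℝ (v '' (A : Set ι))

lemma sp_mono (v : ι → E) {A B : Finset ι} (h : A ⊆ B) : sp v A ≤ sp v B :=
  Submodule.span_mono (Set.image_mono (by exact_mod_cast h))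

lemma mem_sp (v : ι → E) {A : Finset ι} {i : ι} (h : i ∈ A) : v i ∈ sp v A :=
  Submodule.subset_span ⟨i, by exact_mod_cast h, rfl⟩

/-- orthogonal component of the pivot -/
noncomputable def wv (v : ι → E) (A : Finset ι) (p : ι) : E :=
  v p - (sp v (A.erase p)).starProjection (v p)

lemma wv_orth (v : ι → E) (A : Finset ι) (p : ι) : wv v A p ∈ (sp v (A.erase p))ᗮ :=
  Submodule.sub_starProjection_mem_orthogonal _

lemma wv_norm_sq_le (v : ι → E) (hv : ∀ i, ‖v i‖ ≤ 1) (A : Finset ι) (p : ι) :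
    ‖wv v A p‖ ^ 2 ≤ 1 := by
  have h1 := wv_orth v A p
  have h2 : ⟪(sp v (A.erase p)).starProjection (v p), wv v A p⟫_ℝ = 0 :=
    h1 _ (Submodule.starProjection_apply_mem _ _)
  have h3 : ‖v p‖ ^ 2 = ‖(sp v (A.erase p)).starProjection (v p)‖ ^ 2 + ‖wv v A p‖ ^ 2 := by
    have h4 : v p = (sp v (A.erase p)).starProjection (v p) + wv v A p := by
      unfold wv; abel
    conv_lhs => rw [h4]
    rw [norm_add_sq_real, h2]
    ring
  have h5 : ‖v p‖ ^ 2 ≤ 1 := pow_le_one₀ (norm_nonneg _) (hv p)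
  have h6 := sq_nonneg ‖(sp v (A.erase p)).starProjection (v p)‖
  linarith

/-- admissible points for the alive set `A` -/
def Adm (A : Finset ι) (x : ι → ℝ) : Prop := (∀ i, |x i| ≤ 1) ∧ ∀ i, i ∉ A → |x i| = 1

/-- the bound without pivot -/
def CC (v : ι → E) (A : Finset ι) : Prop :=
  ∀ x, Adm A x → Good v x (fun θ => 400 * en (sp v A) θ)

/-- the bound with pivot -/
def RR (v : ι → E) (A : Finset ι) (p : ι) : Prop :=
  ∀ x, Adm A x → Good v x (fun θ => 400 * en (sp v (A.erase p)) θ +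
    hh (x p) ⟪θ, wv v A p⟫_ℝ (‖wv v A p‖ ^ 2))

lemma reduce_pivot (v : ι → E) (hv : ∀ i, ‖v i‖ ≤ 1) {A : Finset ι} {p : ι}
    (hC : CC v (A.erase p)) {x : ι → ℝ} (hx : Adm A x) (hxp : |x p| = 1) :
    Good v x (fun θ => 400 * en (sp v (A.erase p)) θ +
      hh (x p) ⟪θ, wv v A p⟫_ℝ (‖wv v A p‖ ^ 2)) := by
  have h1 : Adm (A.erase p) x := by
    refine ⟨hx.1, fun i hi => ?_⟩
    rw [Finset.mem_erase, not_and_or, not_not] at hi
    rcases hi with h | h
    · rw [h]; exact hxp
    · exact hx.2 i h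
  refine (hC x h1).mono fun θ => ?_
  have := hh_nonneg (l := ⟪θ, wv v A p⟫_ℝ) hxp.le (sq_nonneg ‖wv v A p‖) (wv_norm_sq_le v hv A p)
  linarith

lemma reduce_other (v : ι → E) {A : Finset ι} {p i : ι}
    (hR : RR v (A.erase i) p) {x : ι → ℝ} (hx : Adm A x) (hxi : |x i| = 1) :
    Good v x (fun θ => 400 * en (sp v (A.erase p)) θ +
      hh (x p) ⟪θ, wv v A p⟫_ℝ (‖wv v A p‖ ^ 2)) := by
  have h1 : Adm (A.erase i) x := by
    refine ⟨hx.1, fun j hj => ?_⟩
    rw [Finset.mem_erase, not_and_or, not_not] at hj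
    rcases hj with h | h
    · rw [h]; exact hxi
    · exact hx.2 j h
  refine (hR x h1).mono fun θ => ?_
  set U := sp v (A.erase p) with hU
  set U' := sp v ((A.erase i).erase p) with hU'
  have hle : U' ≤ U := sp_mono v (Finset.erase_subset_erase p (Finset.erase_subset i A))
  set b := wv v (A.erase i) p - wv v A p with hb
  have hb2 : b = U.starProjection (v p) - U'.starProjection (v p) := by
    rw [hb]; unfold wv; abel
  have hbU : b ∈ U := by
    rw [hb2]
    exact Submodule.sub_mem _ (Submodule.starProjection_apply_mem _ _)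
      (hle (Submodule.starProjection_apply_mem _ _))
  have hbU' : b ∈ U'ᗮ := by
    rw [hb]
    exact Submodule.sub_mem _ (wv_orth v (A.erase i) p)
      (Submodule.orthogonal_le hle (wv_orth v A p))
  have hwb : ⟪wv v A p, b⟫_ℝ = 0 := by
    rw [real_inner_comm]
    exact (wv_orth v A p) b hbU
  have hsum : wv v (A.erase i) p = wv v A p + b := by rw [hb]; abel
  have hn : ‖wv v (A.erase i) p‖ ^ 2 = ‖wv v A p‖ ^ 2 + ‖b‖ ^ 2 := by
    rw [hsum, norm_add_sq_real, hwb]; ring
  have hin : ⟪θ, wv v (A.erase i) p⟫_ℝ = ⟪θ, wv v A p⟫_ℝ + ⟪θ, b⟫_ℝ := by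
    rw [hsum, inner_add_right]
  rw [hn, hin]
  have he := en_energy hle hbU hbU' θ
  have hm := en_mono hle θ
  have hs := hh_step (y := x p) (l := ⟪θ, wv v A p⟫_ℝ) (q := ‖wv v A p‖ ^ 2) (b := ⟪θ, b⟫_ℝ)
    (r := ‖b‖ ^ 2) (e := en U θ - en U' θ) (hx.1 p) (sq_nonneg _) (sq_nonneg _) (by linarith) he
  linarith

/-- first hitting time of the boundary -/
lemma hit {A : Finset ι} {x u : ι → ℝ} (hx : ∀ i ∈ A, |x i| < 1) {p : ι} (hp : p ∈ A)
    (hu : u p ≠ 0) :
    ∃ δ : ℝ, 0 < δ ∧ (∀ i ∈ A, |x i + δ * u i| ≤ 1) ∧ ∃ i ∈ A, |x i + δ * u i| = 1 := by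
  have hne : A.Nonempty := ⟨p, hp⟩
  set f : ℝ → ℝ := fun δ => A.sup' hne (fun i => |x i + δ * u i|) with hf
  have hfc : Continuous f := by
    rw [hf]
    apply Continuous.finset_sup'_apply
    intro i _
    fun_prop
  have h0 : f 0 < 1 := by
    rw [hf]
    simp only [zero_mul, add_zero]
    rw [Finset.sup'_lt_iff]
    exact hx
  have hup : 0 < |u p| := abs_pos.2 hu
  have h1 : 1 ≤ f (2 / |u p|) := by
    have h2 : |x p + 2 / |u p| * u p| ≤ f (2 / |u p|) :=
      Finset.le_sup' (fun i => |x i + 2 / |u p| * u i|) hp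
    refine le_trans ?_ h2
    have h3 : |2 / |u p| * u p| = 2 := by
      rw [abs_mul, abs_div, abs_abs, abs_of_pos (by norm_num : (0 : ℝ) < 2)]
      field_simp
    have h4 : |2 / |u p| * u p| ≤ |x p + 2 / |u p| * u p| + |x p| := by
      calc |2 / |u p| * u p| = |(x p + 2 / |u p| * u p) - x p| := by congr 1; ring
        _ ≤ _ := abs_sub _ _
    have := hx p hp
    linarith
  have h2 : (0 : ℝ) ≤ 2 / |u p| := by positivity
  obtain ⟨δ, hδ, hfδ⟩ := intermediate_value_Icc h2 hfc.continuousOn ⟨h0.le, h1⟩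
  refine ⟨δ, ?_, ?_, ?_⟩
  · rcases hδ.1.eq_or_lt with h | h
    · exfalso
      rw [← h] at hfδ
      linarith
    · exact h
  · intro i hi
    rw [← hfδ]
    exact Finset.le_sup' (fun i => |x i + δ * u i|) hi
  · obtain ⟨i, hi, he⟩ := Finset.exists_mem_eq_sup' hne (fun i => |x i + δ * u i|)
    exact ⟨i, hi, he.symm.trans hfδ⟩

lemma exists_dir (v : ι → E) {A : Finset ι} {p : ι} (hp : p ∈ A) :
    ∃ u : ι → ℝ, u p = 1 ∧ (∀ i, i ∉ A → u i = 0) ∧ ∑ i, u i • v i = wv v A p := by
  have h1 : (sp v (A.erase p)).starProjection (v p) ∈ sp v (A.erase p) :=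
    Submodule.starProjection_apply_mem _ _
  unfold sp at h1
  rw [Submodule.mem_span_image_finset_iff_exists_fun'] at h1
  obtain ⟨c, hc⟩ := h1
  refine ⟨fun i => if i = p then 1 else if i ∈ A then - c i else 0, by simp, ?_, ?_⟩
  · intro i hi
    have : i ≠ p := fun h => hi (h ▸ hp)
    simp [this, hi]
  · have h2 : ∀ i, (if i = p then (1 : ℝ) else if i ∈ A then - c i else 0) • v i =
        (if i = p then v p else 0) - (if i ∈ A.erase p then c i • v i else 0) := by
      intro i
      by_cases h : i = p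
      · simp [h]
      · by_cases h' : i ∈ A
        · simp [h, h']
        · simp [h, h']
    simp_rw [h2]
    rw [Finset.sum_sub_distrib, Finset.sum_ite_eq', if_pos (Finset.mem_univ _),
      Finset.sum_ite_mem, Finset.univ_inter, hc]
    rfl

lemma move (v : ι → E) (hv : ∀ i, ‖v i‖ ≤ 1) {A : Finset ι} {p : ι} (hp : p ∈ A)
    (hG : ∀ x : ι → ℝ, Adm A x → (∃ i ∈ A, |x i| = 1) →
      Good v x (fun θ => 400 * en (sp v (A.erase p)) θ +
        hh (x p) ⟪θ, wv v A p⟫_ℝ (‖wv v A p‖ ^ 2)))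
    {x : ι → ℝ} (hx : Adm A x) (hx1 : ∀ i ∈ A, |x i| < 1) :
    Good v x (fun θ => 400 * en (sp v (A.erase p)) θ +
        hh (x p) ⟪θ, wv v A p⟫_ℝ (‖wv v A p‖ ^ 2)) := by
  obtain ⟨u, hup, hu0, huw⟩ := exists_dir v hp
  obtain ⟨d1, hd1, h11, h12⟩ := hit (u := u) hx1 hp (by rw [hup]; norm_num)
  obtain ⟨d2, hd2, h21, h22⟩ := hit (u := fun i => - u i) hx1 hp (by rw [hup]; norm_num)
  set x1 : ι → ℝ := fun i => x i + d1 * u i with hx1def
  set x2 : ι → ℝ := fun i => x i + d2 * (- u i) with hx2def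
  have ha1 : Adm A x1 := by
    refine ⟨fun i => ?_, fun i hi => ?_⟩
    · by_cases h : i ∈ A
      · exact h11 i h
      · show |x i + d1 * u i| ≤ 1
        rw [hu0 i h, mul_zero, add_zero]; exact hx.1 i
    · show |x i + d1 * u i| = 1
      rw [hu0 i hi, mul_zero, add_zero]; exact hx.2 i hi
  have ha2 : Adm A x2 := by
    refine ⟨fun i => ?_, fun i hi => ?_⟩
    · by_cases h : i ∈ A
      · exact h21 i h
      · show |x i + d2 * (- u i)| ≤ 1
        rw [hu0 i h, neg_zero, mul_zero, add_zero]; exact hx.1 i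
    · show |x i + d2 * (- u i)| = 1
      rw [hu0 i hi, neg_zero, mul_zero, add_zero]; exact hx.2 i hi
  obtain ⟨w1, hw10, hw11, hw12⟩ := hG x1 ha1 h12
  obtain ⟨w2, hw20, hw21, hw22⟩ := hG x2 ha2 h22
  have hd : 0 < d1 + d2 := by linarith
  set a := d2 / (d1 + d2) with ha
  set b := d1 / (d1 + d2) with hb
  have ha0 : 0 ≤ a := by positivity
  have hb0 : 0 ≤ b := by positivity
  have hab : a + b = 1 := by
    rw [ha, hb, ← add_div, add_comm d2 d1, div_self hd.ne']
  have hmean : a * x1 p + b * x2 p = x p := by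
    show a * (x p + d1 * u p) + b * (x p + d2 * (- u p)) = x p
    rw [hup]
    have : a * d1 = b * d2 := by rw [ha, hb]; ring
    calc a * (x p + d1 * 1) + b * (x p + d2 * -1) = (a + b) * x p + (a * d1 - b * d2) := by ring
      _ = x p := by rw [hab, this]; ring
  refine ⟨fun s => a * w1 s + b * w2 s, fun s => by
    have := hw10 s; have := hw20 s; positivity, ?_, fun θ => ?_⟩
  · rw [Finset.sum_add_distrib, ← Finset.mul_sum, ← Finset.mul_sum, hw11, hw21]; linarith
  · set l := ⟪θ, wv v A p⟫_ℝ with hl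
    set q := ‖wv v A p‖ ^ 2 with hq
    have hdisp1 : ∀ s, disp v x s = disp v x1 s + d1 • wv v A p := by
      intro s
      unfold disp
      rw [← huw, Finset.smul_sum, ← Finset.sum_add_distrib]
      refine Finset.sum_congr rfl fun i _ => ?_
      rw [smul_smul, ← add_smul]
      congr 1
      show sg (s i) - x i = sg (s i) - (x i + d1 * u i) + d1 * u i
      ring
    have hdisp2 : ∀ s, disp v x s = disp v x2 s - d2 • wv v A p := by
      intro s
      unfold disp
      rw [← huw, Finset.smul_sum, ← Finset.sum_sub_distrib]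
      refine Finset.sum_congr rfl fun i _ => ?_
      rw [smul_smul, ← sub_smul]
      congr 1
      show sg (s i) - x i = sg (s i) - (x i + d2 * (- u i)) - d2 * u i
      ring
    have hin1 : ∀ s, Real.exp ⟪θ, disp v x s⟫_ℝ =
        Real.exp (d1 * l) * Real.exp ⟪θ, disp v x1 s⟫_ℝ := by
      intro s
      rw [hdisp1 s, inner_add_right, inner_smul_right, ← Real.exp_add]
      congr 1; ring
    have hin2 : ∀ s, Real.exp ⟪θ, disp v x s⟫_ℝ =
        Real.exp (-(d2 * l)) * Real.exp ⟪θ, disp v x2 s⟫_ℝ := by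
      intro s
      rw [hdisp2 s, inner_sub_right, inner_smul_right, ← Real.exp_add]
      congr 1; ring
    have hsplit : ∑ s, (a * w1 s + b * w2 s) * Real.exp ⟪θ, disp v x s⟫_ℝ =
        a * (Real.exp (d1 * l) * ∑ s, w1 s * Real.exp ⟪θ, disp v x1 s⟫_ℝ) +
        b * (Real.exp (-(d2 * l)) * ∑ s, w2 s * Real.exp ⟪θ, disp v x2 s⟫_ℝ) := by
      rw [Finset.mul_sum, Finset.mul_sum, Finset.mul_sum, Finset.mul_sum,
        ← Finset.sum_add_distrib]
      refine Finset.sum_congr rfl fun s _ => ?_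
      rw [add_mul]
      congr 1
      · rw [hin1 s]; ring
      · rw [hin2 s]; ring
    show ∑ s, (a * w1 s + b * w2 s) * Real.exp ⟪θ, disp v x s⟫_ℝ ≤ _
    rw [hsplit]
    have e1 := hw12 θ
    have e2 := hw22 θ
    simp only [← hl] at e1 e2
    have hq0 : 0 ≤ q := sq_nonneg _
    have hq1 : q ≤ 1 := wv_norm_sq_le v hv A p
    have hm := hh_mart (l := l) hq0 hq1 ha0 hb0 hab (ha1.1 p) (ha2.1 p)
    rw [hmean] at hm
    have hx1p : x1 p - x p = d1 := by
      show x p + d1 * u p - x p = d1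
      rw [hup]; ring
    have hx2p : x2 p - x p = - d2 := by
      show x p + d2 * (- u p) - x p = - d2
      rw [hup]; ring
    rw [hx1p, hx2p] at hm
    calc a * (Real.exp (d1 * l) * ∑ s, w1 s * Real.exp ⟪θ, disp v x1 s⟫_ℝ) +
        b * (Real.exp (-(d2 * l)) * ∑ s, w2 s * Real.exp ⟪θ, disp v x2 s⟫_ℝ)
        ≤ a * (Real.exp (d1 * l) * Real.exp (400 * en (sp v (A.erase p)) θ + hh (x1 p) l q)) +
          b * (Real.exp (-(d2 * l)) * Real.exp (400 * en (sp v (A.erase p)) θ + hh (x2 p) l q)) := by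
          gcongr
      _ = Real.exp (400 * en (sp v (A.erase p)) θ) *
          (a * Real.exp (l * d1 + hh (x1 p) l q) + b * Real.exp (l * -d2 + hh (x2 p) l q)) := by
          rw [← Real.exp_add, ← Real.exp_add, mul_add]
          have k1 : Real.exp (d1 * l + (400 * en (sp v (A.erase p)) θ + hh (x1 p) l q)) =
              Real.exp (400 * en (sp v (A.erase p)) θ) * Real.exp (l * d1 + hh (x1 p) l q) := by
            rw [← Real.exp_add]; congr 1; ring
          have k2 : Real.exp (-(d2 * l) + (400 * en (sp v (A.erase p)) θ + hh (x2 p) l q)) =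
              Real.exp (400 * en (sp v (A.erase p)) θ) * Real.exp (l * -d2 + hh (x2 p) l q) := by
            rw [← Real.exp_add]; congr 1; ring
          rw [k1, k2]; ring
      _ ≤ Real.exp (400 * en (sp v (A.erase p)) θ) * Real.exp (hh (x p) l q) :=
          mul_le_mul_of_nonneg_left hm (Real.exp_pos _).le
      _ = Real.exp (400 * en (sp v (A.erase p)) θ + hh (x p) l q) := by rw [Real.exp_add]

lemma main_ind (v : ι → E) (hv : ∀ i, ‖v i‖ ≤ 1) (k : ℕ) :
    ∀ A : Finset ι, A.card = k → CC v A ∧ ∀ p ∈ A, RR v A p := by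
  induction k with
  | zero =>
    intro A hA
    rw [Finset.card_eq_zero] at hA
    refine ⟨?_, fun p hp => by rw [hA] at hp; simp at hp⟩
    intro x hx
    refine ⟨fun b => if b = (fun i => decide (x i = 1)) then 1 else 0,
      fun b => by dsimp only; split_ifs <;> norm_num, by simp, fun θ => ?_⟩
    rw [Finset.sum_eq_single (fun i => decide (x i = 1))
      (fun b _ hb => by simp [hb]) (fun h => absurd (Finset.mem_univ _) h)]
    have h0 : disp v x (fun i => decide (x i = 1)) = 0 := by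
      unfold disp
      refine Finset.sum_eq_zero fun i _ => ?_
      have h1 := hx.2 i (by rw [hA]; simp)
      have h2 : sg (decide (x i = 1)) = x i := by
        rcases eq_or_eq_neg_of_abs_eq h1 with h | h
        · simp [sg, h]
        · rw [h]; norm_num [sg]
      rw [h2, sub_self, zero_smul]
    rw [h0, inner_zero_right, Real.exp_zero]
    simp only [if_true, mul_one]
    have := en_nonneg (sp v A) θ
    exact Real.one_le_exp (by positivity)
  | succ k ih =>
    intro A hA
    have hRR : ∀ p ∈ A, RR v A p := by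
      intro p hp
      have hG : ∀ x : ι → ℝ, Adm A x → (∃ i ∈ A, |x i| = 1) →
          Good v x (fun θ => 400 * en (sp v (A.erase p)) θ +
            hh (x p) ⟪θ, wv v A p⟫_ℝ (‖wv v A p‖ ^ 2)) := by
        rintro x hx ⟨i, hi, hxi⟩
        by_cases h : i = p
        · rw [h] at hxi
          exact reduce_pivot v hv (ih (A.erase p) (by
            rw [Finset.card_erase_of_mem hp, hA]; rfl)).1 hx hxi
        · exact reduce_other v ((ih (A.erase i) (by
            rw [Finset.card_erase_of_mem hi, hA]; rfl)).2 p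
              (Finset.mem_erase.2 ⟨fun h' => h h'.symm, hp⟩)) hx hxi
      intro x hx
      by_cases h : ∃ i ∈ A, |x i| = 1
      · exact hG x hx h
      · push Not at h
        exact move v hv hp hG hx (fun i hi => lt_of_le_of_ne (hx.1 i) (h i hi))
    refine ⟨?_, hRR⟩
    obtain ⟨p, hp⟩ : A.Nonempty := by rw [← Finset.card_pos, hA]; omega
    intro x hx
    refine (hRR p hp x hx).mono fun θ => ?_
    have hle : sp v (A.erase p) ≤ sp v A := sp_mono v (Finset.erase_subset p A)
    have hw : wv v A p ∈ sp v A := by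
      unfold wv
      exact Submodule.sub_mem _ (mem_sp v hp) (hle (Submodule.starProjection_apply_mem _ _))
    have he := en_energy hle hw (wv_orth v A p) θ
    have hm := en_mono hle θ
    have := hh_le (y := x p) (sq_nonneg ‖wv v A p‖) (by linarith :
      0 ≤ en (sp v A) θ - en (sp v (A.erase p)) θ) he
    linarith

/-- **Subgaussian signing.** For vectors of norm at most one and a point `x` of the cube there is a
distribution on the signs such that all exponential moments of the displacement are at most those of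
a Gaussian vector with covariance `800`. -/
theorem subgaussian (v : ι → E) (hv : ∀ i, ‖v i‖ ≤ 1) (x : ι → ℝ) (hx : ∀ i, |x i| ≤ 1) :
    ∃ w : (ι → Bool) → ℝ, (∀ b, 0 ≤ w b) ∧ ∑ b, w b = 1 ∧
      ∀ θ : E, ∑ b, w b * Real.exp ⟪θ, disp v x b⟫_ℝ ≤ Real.exp (400 * ‖θ‖ ^ 2) := by
  obtain ⟨w, h1, h2, h3⟩ := (main_ind v hv _ Finset.univ rfl).1 x
    ⟨hx, fun i hi => absurd (Finset.mem_univ i) hi⟩
  refine ⟨w, h1, h2, fun θ => (h3 θ).trans (Real.exp_le_exp.2 ?_)⟩
  exact mul_le_mul_of_nonneg_left (en_le _ _) (by norm_num)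

end walk

end Pool.Agent.Y339.KG
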