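import Mathlib
import Pool.Agent.Y339.KG.Row
import Pool.Agent.Y339.KG.Walk

/-!
# Squares of subgaussian variables and the second moment method
-/

set_option autoImplicit false

namespace Pool.Agent.Y339.KG

open MeasureTheory ProbabilityTheory Set Filter
open scoped ENNReal NNReal Topology InnerProductSpace

lemma int_exp_sq {s : ℝ} (hs : s < 1 / 2) :
    Integrable (fun x => Real.exp (s * x ^ 2)) (gaussianReal 0 1) ∧
      ∫ x, Real.exp (s * x ^ 2) ∂(gaussianReal 0 1) = (Real.sqrt (1 - 2 * s))⁻¹ := by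
  have hb : 0 < 1 / 2 - s := by linarith
  have e : ∀ x : ℝ, Real.exp (s * x ^ 2) * gaussianPDFReal 0 1 x =
      (Real.sqrt (2 * Real.pi))⁻¹ * Real.exp (-(1 / 2 - s) * x ^ 2) := by
    intro x
    have := ph_eq x
    unfold ph at this
    rw [this, mul_left_comm, ← Real.exp_add]
    congr 2; ring
  constructor
  · rw [gaussianReal_of_var_ne_zero 0 one_ne_zero, integrable_withDensity_iff
      (measurable_gaussianPDF 0 1) (ae_of_all _ fun x => by simp [gaussianPDF])]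
    have e2 : (fun x => Real.exp (s * x ^ 2) * (gaussianPDF 0 1 x).toReal) =
        fun x => (Real.sqrt (2 * Real.pi))⁻¹ * Real.exp (-(1 / 2 - s) * x ^ 2) := by
      funext x
      rw [toReal_gaussianPDF, e x]
    rw [e2]
    exact (integrable_exp_neg_mul_sq hb).const_mul _
  · rw [integral_gaussianReal_eq_integral_smul one_ne_zero]
    have e2 : ∀ x : ℝ, gaussianPDFReal 0 1 x • Real.exp (s * x ^ 2) =
        (Real.sqrt (2 * Real.pi))⁻¹ * Real.exp (-(1 / 2 - s) * x ^ 2) := by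
      intro x
      rw [smul_eq_mul, mul_comm, e x]
    simp_rw [e2]
    rw [integral_const_mul, integral_gaussian, ← Real.sqrt_inv, ← Real.sqrt_inv,
      ← Real.sqrt_mul (by positivity)]
    congr 1
    have := Real.pi_pos
    have h3 : (1 : ℝ) - 2 * s ≠ 0 := by linarith
    field_simp

lemma inv_sqrt_le {u : ℝ} (h0 : 0 ≤ u) (h1 : u ≤ 1 / 2) : (Real.sqrt (1 - u))⁻¹ ≤ 1 + u := by
  have h2 : 0 < 1 - u := by linarith
  have hs : 0 < Real.sqrt (1 - u) := Real.sqrt_pos.2 h2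
  rw [inv_le_comm₀ hs (by linarith)]
  apply Real.le_sqrt_of_sq_le
  rw [inv_pow, inv_le_comm₀ (by positivity) h2]
  rw [inv_le_iff_one_le_mul₀ h2]
  nlinarith [mul_nonneg h0 h0]

section

variable {β : Type*} [Fintype β]

/-- square exponential moments of subgaussian variables -/
lemma sq_moment {E : Type*} [NormedAddCommGroup E] [InnerProductSpace ℝ E] {w : β → ℝ}
    (y : β → E)
    (hy : ∀ θ : E, ∑ b, w b * Real.exp ⟪θ, y b⟫_ℝ ≤ Real.exp (400 * ‖θ‖ ^ 2))
    {e : E} (he : ‖e‖ ≤ 1) {t : ℝ} (ht : 0 ≤ t) (ht1 : t ≤ 1 / 3200) :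
    ∑ b, w b * Real.exp (t * ⟪y b, e⟫_ℝ ^ 2) ≤ 1 + 1600 * t := by
  set r := Real.sqrt (2 * t) with hr
  have hr2 : r ^ 2 = 2 * t := Real.sq_sqrt (by linarith)
  have h1 : ∀ b, Real.exp (t * ⟪y b, e⟫_ℝ ^ 2) =
      ∫ g, Real.exp ((r * ⟪y b, e⟫_ℝ) * g) ∂(gaussianReal 0 1) := by
    intro b
    have := congrFun (mgf_id_gaussianReal (μ := 0) (v := 1)) (r * ⟪y b, e⟫_ℝ)
    unfold mgf at this
    simp only [id_eq] at this
    rw [this]
    congr 1
    simp only [NNReal.coe_one, zero_mul, zero_add, one_mul]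
    rw [mul_pow, hr2]; ring
  have hint : ∀ b, Integrable (fun g => Real.exp ((r * ⟪y b, e⟫_ℝ) * g)) (gaussianReal 0 1) :=
    fun b => integrable_exp_mul_gaussianReal _
  have h2 : ∑ b, w b * Real.exp (t * ⟪y b, e⟫_ℝ ^ 2) =
      ∫ g, ∑ b, w b * Real.exp ((r * ⟪y b, e⟫_ℝ) * g) ∂(gaussianReal 0 1) := by
    rw [integral_finsetSum _ fun b _ => (hint b).const_mul _]
    refine Finset.sum_congr rfl fun b _ => ?_
    rw [integral_const_mul, h1]
  have hs : 800 * t < 1 / 2 := by linarith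
  obtain ⟨hi1, hi2⟩ := int_exp_sq hs
  rw [h2]
  have h3 : ∫ g, ∑ b, w b * Real.exp ((r * ⟪y b, e⟫_ℝ) * g) ∂(gaussianReal 0 1) ≤
      ∫ g, Real.exp (800 * t * g ^ 2) ∂(gaussianReal 0 1) := by
    apply integral_mono (integrable_finsetSum _ fun b _ => (hint b).const_mul _) hi1
    intro g
    have h4 := hy ((r * g) • e)
    have h5 : ∀ b, (r * ⟪y b, e⟫_ℝ) * g = ⟪(r * g) • e, y b⟫_ℝ := by
      intro b
      rw [inner_smul_left, real_inner_comm]
      simp; ring
    show ∑ b, w b * Real.exp ((r * ⟪y b, e⟫_ℝ) * g) ≤ Real.exp (800 * t * g ^ 2)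
    simp_rw [h5]
    refine h4.trans (Real.exp_le_exp.2 ?_)
    rw [norm_smul, mul_pow, Real.norm_eq_abs, sq_abs, mul_pow, hr2]
    have h6 : ‖e‖ ^ 2 ≤ 1 := pow_le_one₀ (norm_nonneg _) he
    have h7 : 0 ≤ 2 * t * g ^ 2 := by positivity
    nlinarith
  refine h3.trans ?_
  rw [hi2, show 2 * (800 * t) = 1600 * t by ring]
  exact inv_sqrt_le (by linarith) (by linarith)

/-- several directions -/
lemma sq_moment_sum {E : Type*} [NormedAddCommGroup E] [InnerProductSpace ℝ E] {w : β → ℝ}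
    (hw : ∀ b, 0 ≤ w b) (hw1 : ∑ b, w b = 1) (y : β → E)
    (hy : ∀ θ : E, ∑ b, w b * Real.exp ⟪θ, y b⟫_ℝ ≤ Real.exp (400 * ‖θ‖ ^ 2))
    {m : ℕ} (q : Fin m → E) (hq : ∑ i, ‖q i‖ ^ 2 ≤ 1) {t : ℝ} (ht : 0 ≤ t)
    (ht1 : t ≤ 1 / 3200) :
    ∑ b, w b * (Real.exp (t * ∑ i, ⟪y b, q i⟫_ℝ ^ 2) - 1) ≤ 1600 * t := by
  set σ : Fin m → ℝ := fun i => ‖q i‖ ^ 2 with hσ
  set e : Fin m → E := fun i => ‖q i‖⁻¹ • q i with he
  have hen : ∀ i, ‖e i‖ ≤ 1 := by
    intro i
    rw [he]; dsimp only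
    rw [norm_smul, norm_inv, norm_norm]
    by_cases h : ‖q i‖ = 0
    · rw [h]; simp
    · rw [inv_mul_cancel₀ h]
  have hqe : ∀ i b, ⟪y b, q i⟫_ℝ ^ 2 = σ i * ⟪y b, e i⟫_ℝ ^ 2 := by
    intro i b
    rw [hσ, he]; dsimp only
    rw [inner_smul_right]
    by_cases h : ‖q i‖ = 0
    · rw [norm_eq_zero.1 h]; simp
    · field_simp
  have hpt : ∀ b, Real.exp (t * ∑ i, ⟪y b, q i⟫_ℝ ^ 2) - 1 ≤
      ∑ i, σ i * (Real.exp (t * ⟪y b, e i⟫_ℝ ^ 2) - 1) := by
    intro b
    have h1 : t * ∑ i, ⟪y b, q i⟫_ℝ ^ 2 = (1 - ∑ i, σ i) • (0 : ℝ) +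
        ∑ i, σ i • (t * ⟪y b, e i⟫_ℝ ^ 2) := by
      rw [smul_zero, zero_add, Finset.mul_sum]
      refine Finset.sum_congr rfl fun i _ => ?_
      rw [hqe, smul_eq_mul]; ring
    have h2 := convexOn_exp.map_add_sum_le (t := Finset.univ) (w := σ)
      (p := fun i => t * ⟪y b, e i⟫_ℝ ^ 2) (v := 1 - ∑ i, σ i) (q := 0)
      (fun i _ => sq_nonneg _) (by ring) (fun i _ => mem_univ _)
      (by linarith) (mem_univ _)
    rw [← h1, Real.exp_zero] at h2
    simp only [smul_eq_mul, mul_one] at h2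
    have h3 : ∑ i, σ i * (Real.exp (t * ⟪y b, e i⟫_ℝ ^ 2) - 1) =
        ∑ i, σ i * Real.exp (t * ⟪y b, e i⟫_ℝ ^ 2) - ∑ i, σ i := by
      rw [← Finset.sum_sub_distrib]
      exact Finset.sum_congr rfl fun i _ => by ring
    rw [h3]
    linarith
  calc ∑ b, w b * (Real.exp (t * ∑ i, ⟪y b, q i⟫_ℝ ^ 2) - 1)
      ≤ ∑ b, w b * ∑ i, σ i * (Real.exp (t * ⟪y b, e i⟫_ℝ ^ 2) - 1) :=
        Finset.sum_le_sum fun b _ => mul_le_mul_of_nonneg_left (hpt b) (hw b)
    _ = ∑ i, σ i * (∑ b, w b * Real.exp (t * ⟪y b, e i⟫_ℝ ^ 2) - 1) := by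
        simp_rw [Finset.mul_sum]
        rw [Finset.sum_comm]
        refine Finset.sum_congr rfl fun i _ => ?_
        rw [mul_sub, mul_one, Finset.mul_sum]
        have : σ i = ∑ b, σ i * w b := by rw [← Finset.mul_sum, hw1, mul_one]
        conv_rhs => rw [this]
        rw [← Finset.sum_sub_distrib]
        refine Finset.sum_congr rfl fun b _ => ?_
        have h9 : (∑ b, σ i * w b) = σ i := this.symm
        rw [h9]
        ring
    _ ≤ ∑ i, σ i * (1600 * t) := by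
        refine Finset.sum_le_sum fun i _ => mul_le_mul_of_nonneg_left ?_ (sq_nonneg _)
        have := sq_moment y hy (hen i) ht ht1
        linarith
    _ = (∑ i, σ i) * (1600 * t) := by rw [Finset.sum_mul]
    _ ≤ 1 * (1600 * t) := mul_le_mul_of_nonneg_right hq (by linarith)
    _ = 1600 * t := one_mul _

/-- second moment method -/
lemma second_moment_supp {Ω : Type*} [MeasurableSpace Ω] (μ : Measure Ω) [IsProbabilityMeasure μ]
    (S : β → Set Ω) (hS : ∀ b, MeasurableSet (S b)) (hP : ∀ b, 0 < μ.real (S b))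
    {w : β → ℝ} (hw1 : ∑ b, w b = 1) :
    μ.real {ω | ∀ b, w b ≠ 0 → ω ∉ S b} ≤
      ∑ b, ∑ c, w b * w c * (μ.real (S b ∩ S c) / (μ.real (S b) * μ.real (S c)) - 1) := by
  set P : β → ℝ := fun b => μ.real (S b) with hPdef
  set a : β → ℝ := fun b => w b / P b with ha
  set Z : Ω → ℝ := fun ω => ∑ b, a b * (S b).indicator 1 ω with hZ
  have hFm : MeasurableSet {ω | ∀ b, w b ≠ 0 → ω ∉ S b} := by
    have : {ω | ∀ b, w b ≠ 0 → ω ∉ S b} = ⋂ b, ⋂ (_ : w b ≠ 0), (S b)ᶜ := by ext ω; simp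
    rw [this]
    exact MeasurableSet.iInter fun b => MeasurableSet.iInter fun _ => (hS b).compl
  have hii : ∀ b, Integrable ((S b).indicator (1 : Ω → ℝ)) μ := fun b =>
    (integrable_const (1 : ℝ)).indicator (hS b)
  have hij : ∀ b c, Integrable ((S b ∩ S c).indicator (1 : Ω → ℝ)) μ := fun b c =>
    (integrable_const (1 : ℝ)).indicator ((hS b).inter (hS c))
  have hZZ : ∀ ω, (1 - Z ω) ^ 2 = 1 - 2 * ∑ b, a b * (S b).indicator 1 ω +
      ∑ b, ∑ c, a b * a c * (S b ∩ S c).indicator 1 ω := by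
    intro ω
    have h1 : Z ω ^ 2 = ∑ b, ∑ c, a b * a c * (S b ∩ S c).indicator 1 ω := by
      rw [hZ]; dsimp only
      rw [sq, Finset.sum_mul_sum]
      refine Finset.sum_congr rfl fun b _ => Finset.sum_congr rfl fun c _ => ?_
      by_cases hb : ω ∈ S b <;> by_cases hc : ω ∈ S c <;> simp [hb, hc]
    rw [← h1]; ring
  have hint1 : Integrable (fun ω => ∑ b, a b * (S b).indicator (1 : Ω → ℝ) ω) μ :=
    integrable_finsetSum _ fun b _ => (hii b).const_mul _
  have hint2 : Integrable (fun ω => ∑ b, ∑ c, a b * a c * (S b ∩ S c).indicator (1 : Ω → ℝ) ω) μ :=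
    integrable_finsetSum _ fun b _ => integrable_finsetSum _ fun c _ => (hij b c).const_mul _
  have hE1 : ∫ ω, ∑ b, a b * (S b).indicator (1 : Ω → ℝ) ω ∂μ = 1 := by
    rw [integral_finsetSum _ fun b _ => (hii b).const_mul _]
    rw [← hw1]
    refine Finset.sum_congr rfl fun b _ => ?_
    rw [integral_const_mul, integral_indicator_one (hS b), ha]
    dsimp only
    exact div_mul_cancel₀ _ (hP b).ne'
  have hE2 : ∫ ω, ∑ b, ∑ c, a b * a c * (S b ∩ S c).indicator (1 : Ω → ℝ) ω ∂μ =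
      ∑ b, ∑ c, w b * w c * (μ.real (S b ∩ S c) / (P b * P c)) := by
    rw [integral_finsetSum _ fun b _ => integrable_finsetSum _ fun c _ => (hij b c).const_mul _]
    refine Finset.sum_congr rfl fun b _ => ?_
    rw [integral_finsetSum _ fun c _ => (hij b c).const_mul _]
    refine Finset.sum_congr rfl fun c _ => ?_
    rw [integral_const_mul, integral_indicator_one ((hS b).inter (hS c)), ha]
    dsimp only
    have := (hP b).ne'
    have := (hP c).ne'
    field_simp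
  have h1 : μ.real {ω | ∀ b, w b ≠ 0 → ω ∉ S b} ≤ ∫ ω, (1 - Z ω) ^ 2 ∂μ := by
    rw [← integral_indicator_one hFm]
    simp_rw [hZZ]
    apply integral_mono ((integrable_const (1 : ℝ)).indicator hFm)
      (((integrable_const (1 : ℝ)).sub (hint1.const_mul 2)).add hint2)
    intro ω
    dsimp only
    by_cases h : ω ∈ {ω | ∀ b, w b ≠ 0 → ω ∉ S b}
    · have h2 : ∀ b, a b * (S b).indicator (1 : Ω → ℝ) ω = 0 := fun b => by
        by_cases hb : w b = 0
        · rw [ha]; dsimp only; rw [hb, zero_div, zero_mul]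
        · rw [indicator_of_notMem (h b hb) _, mul_zero]
      have h3 : ∀ b c, a b * a c * (S b ∩ S c).indicator (1 : Ω → ℝ) ω = 0 := fun b c => by
        by_cases hb : w b = 0
        · rw [ha]; dsimp only; rw [hb, zero_div, zero_mul, zero_mul]
        · rw [indicator_of_notMem (fun h' => h b hb h'.1) _, mul_zero]
      have h4 := indicator_of_mem h (fun _ => (1 : ℝ))
      rw [h4]
      simp only [Pi.add_apply, Pi.sub_apply, h2, h3, mul_zero, Finset.sum_const_zero]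
      norm_num
    · have h4 := indicator_of_notMem h (fun _ => (1 : ℝ))
      rw [h4]
      have := sq_nonneg (1 - Z ω)
      rw [hZZ] at this
      exact this
  refine h1.trans (le_of_eq ?_)
  simp_rw [hZZ]
  have h5 : ∫ ω, (1 - 2 * ∑ b, a b * (S b).indicator (1 : Ω → ℝ) ω +
      ∑ b, ∑ c, a b * a c * (S b ∩ S c).indicator (1 : Ω → ℝ) ω) ∂μ =
      1 - 2 * 1 + ∑ b, ∑ c, w b * w c * (μ.real (S b ∩ S c) / (P b * P c)) := by
    have hA : Integrable (fun ω => (1 : ℝ) - 2 * ∑ b, a b * (S b).indicator (1 : Ω → ℝ) ω) μ :=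
      (integrable_const (1 : ℝ)).sub (hint1.const_mul 2)
    rw [integral_add hA hint2, integral_sub (integrable_const (1 : ℝ)) (hint1.const_mul 2),
      integral_const_mul, hE1, hE2]
    simp
  rw [h5]
  have h6 : ∑ b, ∑ c, w b * w c * (μ.real (S b ∩ S c) / (P b * P c) - 1) =
      ∑ b, ∑ c, w b * w c * (μ.real (S b ∩ S c) / (P b * P c)) - ∑ b, ∑ c, w b * w c := by
    rw [← Finset.sum_sub_distrib]
    refine Finset.sum_congr rfl fun b _ => ?_
    rw [← Finset.sum_sub_distrib]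
    exact Finset.sum_congr rfl fun c _ => by ring
  rw [h6, ← Finset.sum_mul_sum, hw1]
  ring

end

end Pool.Agent.Y339.KG
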