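import Mathlib
import Pool.Agent.Y339.KG.Moment

/-!
# Gaussian matrices with independent rows: discrepancy of arbitrary families
-/

set_option autoImplicit false

namespace Pool.Agent.Y339.KG

open MeasureTheory ProbabilityTheory Set Filter
open scoped ENNReal NNReal Topology InnerProductSpace

/-- Euclidean space -/
abbrev EE (d : ℕ) := EuclideanSpace ℝ (Fin d)

section

variable {β : Type*} [Fintype β]

lemma norm_moment {d : ℕ} {w : β → ℝ} (hw : ∀ b, 0 ≤ w b) (hw1 : ∑ b, w b = 1) (y : β → EE d)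
    (hy : ∀ θ : EE d, ∑ b, w b * Real.exp ⟪θ, y b⟫_ℝ ≤ Real.exp (400 * ‖θ‖ ^ 2))
    (U : Submodule ℝ (EE d)) (hU : ∀ b, y b ∈ U) :
    ∑ b, w b * ‖y b‖ ^ 2 ≤ 1600 * Module.finrank ℝ U := by
  set e := stdOrthonormalBasis ℝ U with he
  have h1 : ∀ k, ∑ b, w b * ⟪y b, (e k : EE d)⟫_ℝ ^ 2 ≤ 1600 := by
    intro k
    have hek : ‖(e k : EE d)‖ ≤ 1 := by
      exact (e.norm_eq_one k).le
    have h2 := sq_moment y hy hek (t := 1 / 3200) (by norm_num) le_rfl
    have h4 : ∑ b, w b * (1 + 1 / 3200 * ⟪y b, (e k : EE d)⟫_ℝ ^ 2) ≤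
        ∑ b, w b * Real.exp (1 / 3200 * ⟪y b, (e k : EE d)⟫_ℝ ^ 2) := by
      refine Finset.sum_le_sum fun b _ => mul_le_mul_of_nonneg_left ?_ (hw b)
      have := Real.add_one_le_exp (1 / 3200 * ⟪y b, (e k : EE d)⟫_ℝ ^ 2)
      linarith
    have h5 : ∑ b, w b * (1 + 1 / 3200 * ⟪y b, (e k : EE d)⟫_ℝ ^ 2) =
        1 + 1 / 3200 * ∑ b, w b * ⟪y b, (e k : EE d)⟫_ℝ ^ 2 := by
      have h6 : ∀ b, w b * (1 + 1 / 3200 * ⟪y b, (e k : EE d)⟫_ℝ ^ 2) =
          w b + 1 / 3200 * (w b * ⟪y b, (e k : EE d)⟫_ℝ ^ 2) := fun b => by ring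
      simp_rw [h6]
      rw [Finset.sum_add_distrib, hw1, ← Finset.mul_sum]
    linarith
  calc ∑ b, w b * ‖y b‖ ^ 2 = ∑ k, ∑ b, w b * ⟪y b, (e k : EE d)⟫_ℝ ^ 2 := by
        rw [Finset.sum_comm]
        refine Finset.sum_congr rfl fun b _ => ?_
        rw [← Finset.mul_sum]
        congr 1
        exact (e.sum_sq_inner_left (⟨y b, hU b⟩ : U)).symm
    _ ≤ ∑ _k : Fin (Module.finrank ℝ U), (1600 : ℝ) := Finset.sum_le_sum fun k _ => h1 k
    _ = 1600 * Module.finrank ℝ U := by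
        rw [Finset.sum_const, Finset.card_univ, Fintype.card_fin, nsmul_eq_mul]; ring

open Classical in
lemma tail_test {d : ℕ} {w : β → ℝ} (hw : ∀ b, 0 ≤ w b) (y : β → EE d)
    (hy : ∀ θ : EE d, ∑ b, w b * Real.exp ⟪θ, y b⟫_ℝ ≤ Real.exp (400 * ‖θ‖ ^ 2))
    {θ : EE d} (hθ : ‖θ‖ ≤ 1) {L : ℝ} :
    ∑ b with 3200 * L < ⟪y b, θ⟫_ℝ ^ 2, w b ≤ 3 / 2 * Real.exp (-L) := by
  have h2 := sq_moment y hy hθ (t := 1 / 3200) (by norm_num) le_rfl
  have h3 : (∑ b with 3200 * L < ⟪y b, θ⟫_ℝ ^ 2, w b) * Real.exp L ≤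
      ∑ b, w b * Real.exp (1 / 3200 * ⟪y b, θ⟫_ℝ ^ 2) := by
    rw [Finset.sum_mul]
    refine le_trans (Finset.sum_le_sum fun b hb => ?_)
      (Finset.sum_le_sum_of_subset_of_nonneg (Finset.filter_subset _ _)
        fun b _ _ => mul_nonneg (hw b) (Real.exp_pos _).le)
    rw [Finset.mem_filter] at hb
    refine mul_le_mul_of_nonneg_left (Real.exp_le_exp.2 ?_) (hw b)
    linarith [hb.2]
  rw [Real.exp_neg, ← div_eq_mul_inv, le_div_iff₀ (Real.exp_pos _)]
  linarith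

open Classical in
lemma truncate {d N : ℕ} {w : β → ℝ} (hw : ∀ b, 0 ≤ w b) (hw1 : ∑ b, w b = 1) (y : β → EE d)
    (hy : ∀ θ : EE d, ∑ b, w b * Real.exp ⟪θ, y b⟫_ℝ ≤ Real.exp (400 * ‖θ‖ ^ 2))
    (U : Submodule ℝ (EE d)) (hU : ∀ b, y b ∈ U) (θ : Fin N → EE d) (hθ : ∀ l, ‖θ l‖ ≤ 1) :
    ∃ w' : β → ℝ, (∀ b, 0 ≤ w' b) ∧ ∑ b, w' b = 1 ∧ (∀ b, w' b ≤ 2 * w b) ∧
      ∀ b, w' b ≠ 0 → ‖y b‖ ^ 2 ≤ 6400 * Module.finrank ℝ U ∧
        ∀ l, ⟪y b, θ l⟫_ℝ ^ 2 ≤ 3200 * (2 + Real.log (1 + N)) := by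
  have h1 := norm_moment hw hw1 y hy U hU
  set r : ℝ := ((Module.finrank ℝ U : ℕ) : ℝ) with hr
  set L : ℝ := 2 + Real.log (1 + N) with hL
  set good : β → Prop := fun b => ‖y b‖ ^ 2 ≤ 6400 * r ∧ ∀ l, ⟪y b, θ l⟫_ℝ ^ 2 ≤ 3200 * L
    with hgood
  have hbad1 : ∑ b with ¬ ‖y b‖ ^ 2 ≤ 6400 * r, w b ≤ 1 / 4 := by
    rcases Nat.eq_zero_or_pos (Module.finrank ℝ U) with hd | hd
    · have : (Finset.univ.filter fun b => ¬ ‖y b‖ ^ 2 ≤ 6400 * r) = ∅ := by
        rw [Finset.filter_eq_empty_iff]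
        intro b _
        rw [not_not]
        have hbot : U = ⊥ := Submodule.finrank_eq_zero.1 hd
        have h3 := hU b
        rw [hbot, Submodule.mem_bot] at h3
        rw [h3, hr, hd]; simp
      rw [this]; simp
    · have hd' : (0 : ℝ) < r := by rw [hr]; exact_mod_cast hd
      have h2 : (∑ b with ¬ ‖y b‖ ^ 2 ≤ 6400 * r, w b) * (6400 * r) ≤ 1600 * r := by
        refine le_trans ?_ h1
        rw [Finset.sum_mul]
        refine le_trans (Finset.sum_le_sum fun b hb => ?_)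
          (Finset.sum_le_sum_of_subset_of_nonneg (Finset.filter_subset _ _)
            fun b _ _ => mul_nonneg (hw b) (sq_nonneg _))
        rw [Finset.mem_filter, not_le] at hb
        exact mul_le_mul_of_nonneg_left hb.2.le (hw b)
      nlinarith
  have hbad2 : ∑ b with ¬ ∀ l, ⟪y b, θ l⟫_ℝ ^ 2 ≤ 3200 * L, w b ≤ 1 / 4 := by
    have h3 : ∑ b with ¬ ∀ l, ⟪y b, θ l⟫_ℝ ^ 2 ≤ 3200 * L, w b ≤
        ∑ l, ∑ b with 3200 * L < ⟪y b, θ l⟫_ℝ ^ 2, w b := by
      simp_rw [Finset.sum_filter]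
      rw [Finset.sum_comm]
      refine Finset.sum_le_sum fun b _ => ?_
      by_cases h : ∀ l, ⟪y b, θ l⟫_ℝ ^ 2 ≤ 3200 * L
      · rw [if_neg (not_not.2 h)]
        refine Finset.sum_nonneg fun l _ => ?_
        split_ifs
        · exact hw b
        · exact le_rfl
      · rw [if_pos h]
        push Not at h
        obtain ⟨l, hl⟩ := h
        refine le_trans (le_of_eq ?_) (Finset.single_le_sum (f := fun l =>
          if 3200 * L < ⟪y b, θ l⟫_ℝ ^ 2 then w b else 0) (fun l _ => by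
            split_ifs
            · exact hw b
            · exact le_rfl) (Finset.mem_univ l))
        rw [if_pos hl]
    have h4 : ∑ l, ∑ b with 3200 * L < ⟪y b, θ l⟫_ℝ ^ 2, w b ≤ N * (3 / 2 * Real.exp (-L)) := by
      refine (Finset.sum_le_sum fun l _ => tail_test hw y hy (hθ l)).trans (le_of_eq ?_)
      rw [Finset.sum_const, Finset.card_univ, Fintype.card_fin, nsmul_eq_mul]
    have hN : (0 : ℝ) ≤ N := Nat.cast_nonneg N
    have h5 : Real.exp (-L) = Real.exp (-2) / (1 + N) := by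
      rw [hL, neg_add, Real.exp_add, Real.exp_neg (Real.log (1 + N)), Real.exp_log (by linarith),
        div_eq_mul_inv]
    have h6 : Real.exp (-2 : ℝ) ≤ 1 / 6 := by
      rw [Real.exp_neg, one_div]
      apply inv_anti₀ (by norm_num)
      have h7 : Real.exp 2 = Real.exp 1 * Real.exp 1 := by rw [← Real.exp_add]; norm_num
      have h8 := Real.exp_one_gt_d9
      rw [h7]; nlinarith
    have h9 : (N : ℝ) * (3 / 2 * Real.exp (-L)) ≤ 1 / 4 := by
      rw [h5]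
      have h10 : (N : ℝ) / (1 + N) ≤ 1 := by rw [div_le_one (by linarith)]; linarith
      have h11 : 0 ≤ (N : ℝ) / (1 + N) := by positivity
      have h12 := Real.exp_pos (-2 : ℝ)
      calc (N : ℝ) * (3 / 2 * (Real.exp (-2) / (1 + N))) =
            3 / 2 * (Real.exp (-2) * ((N : ℝ) / (1 + N))) := by ring
        _ ≤ 3 / 2 * (1 / 6 * 1) := by gcongr
        _ = 1 / 4 := by norm_num
    linarith
  have hbad : ∑ b with ¬ good b, w b ≤ 1 / 2 := by
    have h3 : ∑ b with ¬ good b, w b ≤ ∑ b with ¬ ‖y b‖ ^ 2 ≤ 6400 * r, w b +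
        ∑ b with ¬ ∀ l, ⟪y b, θ l⟫_ℝ ^ 2 ≤ 3200 * L, w b := by
      simp_rw [Finset.sum_filter]
      rw [← Finset.sum_add_distrib]
      refine Finset.sum_le_sum fun b _ => ?_
      have hwb := hw b
      by_cases ha : ‖y b‖ ^ 2 ≤ 6400 * r <;>
        by_cases hb : ∀ l, ⟪y b, θ l⟫_ℝ ^ 2 ≤ 3200 * L
      · rw [if_neg (not_not.2 (show good b from ⟨ha, hb⟩)), if_neg (not_not.2 ha),
          if_neg (not_not.2 hb)]
        linarith
      · rw [if_pos (show ¬ good b from fun h => hb h.2), if_neg (not_not.2 ha), if_pos hb]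
        linarith
      · rw [if_pos (show ¬ good b from fun h => ha h.1), if_pos ha, if_neg (not_not.2 hb)]
        linarith
      · rw [if_pos (show ¬ good b from fun h => ha h.1), if_pos ha, if_pos hb]
        linarith
    linarith
  set W := ∑ b with good b, w b with hW
  have hsplit : W + ∑ b with ¬ good b, w b = 1 := by
    rw [hW, Finset.sum_filter_add_sum_filter_not, hw1]
  have hW2 : 1 / 2 ≤ W := by linarith
  have hW0 : 0 < W := by linarith
  refine ⟨fun b => if good b then w b / W else 0, fun b => ?_, ?_, fun b => ?_,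
    fun b hb => ?_⟩
  · dsimp only
    split_ifs
    · exact div_nonneg (hw b) hW0.le
    · exact le_rfl
  · rw [← Finset.sum_filter, ← Finset.sum_div, ← hW, div_self hW0.ne']
  · dsimp only
    split_ifs
    · rw [div_le_iff₀ hW0]
      nlinarith [hw b]
    · have := hw b
      linarith
  · by_contra h
    apply hb
    dsimp only
    rw [if_neg h]

end

section main

variable {ι : Type*} [Fintype ι] [DecidableEq ι]

/-- **Main estimate.** -/
theorem main_estimate {m d N : ℕ} (v : ι → EE d) (hv : ∀ j, ‖v j‖ ≤ 1) (x : ι → ℝ)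
    (hx : ∀ j, |x j| ≤ 1) (B : Fin m → EE d →L[ℝ] EE d) (hB : ∑ i, ‖B i‖ ^ 2 ≤ 1)
    {b₀ : ℝ} (hb₀ : ∀ i, ‖B i‖ ≤ b₀) (θ : Fin N → EE d) (hθ : ∀ l, ‖θ l‖ ≤ 1)
    {C : ℝ} (hC : 0 < C) :
    (Measure.pi fun _ : Fin m => stdGaussian (EE d)).real
      {G | ∀ s : ι → Bool, ¬ ((∀ i, |⟪B i (disp v x s), G i⟫_ℝ| ≤ C) ∧
        ∀ l, ⟪disp v x s, θ l⟫_ℝ ^ 2 ≤ 3200 * (2 + Real.log (1 + N)))} ≤
      35200 / C ^ 2 * Real.exp (-(C ^ 2 /
        (25600 * Module.finrank ℝ (Submodule.span ℝ (Set.range v)) * b₀ ^ 2))) := by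
  classical
  obtain ⟨w, hw0, hw1, hw2⟩ := subgaussian v hv x hx
  set y : (ι → Bool) → EE d := fun s => disp v x s with hy
  set U := Submodule.span ℝ (Set.range v) with hU
  have hyU : ∀ s, y s ∈ U := fun s => Submodule.sum_mem _ fun i _ =>
    Submodule.smul_mem _ _ (Submodule.subset_span ⟨i, rfl⟩)
  obtain ⟨w', hw0', hw1', hw2', hw3'⟩ := truncate hw0 hw1 y hw2 U hyU θ hθ
  set r : ℝ := ((Module.finrank ℝ U : ℕ) : ℝ) with hr
  set D : ℝ := 6400 * r * b₀ ^ 2 with hD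
  have hD0 : 0 ≤ D := by positivity
  set a₀ : ℝ := C / Real.sqrt D with ha₀
  have ha₀0 : 0 ≤ a₀ := by positivity
  have ha₀2 : a₀ ^ 2 = C ^ 2 / D := by rw [ha₀, div_pow, Real.sq_sqrt hD0]
  set t : ℝ := cc a₀ / C ^ 2 with ht
  have hC2 : 0 < C ^ 2 := by positivity
  have ht0 : 0 ≤ t := div_nonneg (cc_pos _).le hC2.le
  have hexp : 3200 * t = 35200 / C ^ 2 * Real.exp (-(C ^ 2 / (25600 * r * b₀ ^ 2))) := by
    rw [ht]; unfold cc
    have : a₀ ^ 2 / 4 = C ^ 2 / (25600 * r * b₀ ^ 2) := by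
      rw [ha₀2, hD, div_div]; congr 1; ring
    rw [this]; ring
  rw [← hexp]
  rcases le_or_gt t (1 / 3200) with ht1 | ht1
  swap
  · refine le_trans measureReal_le_one ?_
    linarith
  set γ := stdGaussian (EE d) with hγ
  set μ := Measure.pi fun _ : Fin m => γ with hμ
  set S : (ι → Bool) → Set (Fin m → EE d) := fun s =>
    Set.pi univ (fun i => slab (B i (y s)) C) with hS
  have hSm : ∀ s, MeasurableSet (S s) := fun s => MeasurableSet.univ_pi fun i => slab_meas _ _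
  have hSP : ∀ s, μ.real (S s) = ∏ i, γ.real (slab (B i (y s)) C) := by
    intro s
    rw [Measure.real, hμ, Measure.pi_pi, ENNReal.toReal_prod]
    rfl
  have hSpos : ∀ s, 0 < μ.real (S s) := by
    intro s
    rw [hSP]
    exact Finset.prod_pos fun i _ => slab_pos hC
  have hsm := second_moment_supp μ S hSm hSpos hw1'
  refine le_trans (measureReal_mono ?_) (hsm.trans ?_)
  · intro G hG s hs hGs
    refine hG s ⟨fun i => ?_, (hw3' s hs).2⟩
    exact hGs i (mem_univ i)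
  rw [Finset.sum_comm]
  -- the directions
  set e : (ι → Bool) → Fin m → EE d := fun c i => ‖B i (y c)‖⁻¹ • B i (y c) with he
  set q : (ι → Bool) → Fin m → EE d := fun c i =>
    ContinuousLinearMap.adjoint (B i) (e c i) with hq
  have hen : ∀ c i, ‖e c i‖ ≤ 1 := by
    intro c i
    rw [he]; dsimp only
    rw [norm_smul, norm_inv, norm_norm]
    by_cases h : ‖B i (y c)‖ = 0
    · rw [h]; simp
    · rw [inv_mul_cancel₀ h]
  have hqn : ∀ c, ∑ i, ‖q c i‖ ^ 2 ≤ 1 := by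
    intro c
    refine le_trans (Finset.sum_le_sum fun i _ => ?_) hB
    apply pow_le_pow_left₀ (norm_nonneg _)
    have h1 := (ContinuousLinearMap.adjoint (B i)).le_opNorm (e c i)
    rw [LinearIsometryEquiv.norm_map] at h1
    calc ‖q c i‖ ≤ ‖B i‖ * ‖e c i‖ := h1
      _ ≤ ‖B i‖ * 1 := mul_le_mul_of_nonneg_left (hen c i) (norm_nonneg _)
      _ = ‖B i‖ := mul_one _
  have hratio : ∀ b c, w' b ≠ 0 → μ.real (S b ∩ S c) / (μ.real (S b) * μ.real (S c)) ≤
      Real.exp (t * ∑ i, ⟪y b, q c i⟫_ℝ ^ 2) := by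
    intro b c hb
    have h1 : S b ∩ S c = Set.pi univ (fun i => slab (B i (y c)) C ∩ slab (B i (y b)) C) := by
      rw [hS]; dsimp only
      rw [Set.inter_comm, Set.pi_inter_distrib]
    have h2 : μ.real (S b ∩ S c) = ∏ i, γ.real (slab (B i (y c)) C ∩ slab (B i (y b)) C) := by
      rw [h1, Measure.real, hμ, Measure.pi_pi, ENNReal.toReal_prod]
      rfl
    have h3 : ∀ i, γ.real (slab (B i (y c)) C ∩ slab (B i (y b)) C) ≤
        γ.real (slab (B i (y c)) C) * γ.real (slab (B i (y b)) C) *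
          Real.exp (t * ⟪y b, q c i⟫_ℝ ^ 2) := by
      intro i
      have hR : a₀ ^ 2 * ‖B i (y b)‖ ^ 2 ≤ C ^ 2 := by
        have k1 : ‖B i (y b)‖ ^ 2 ≤ D := by
          have k2 : ‖B i (y b)‖ ≤ b₀ * ‖y b‖ := (B i).le_of_opNorm_le (hb₀ i) _
          calc ‖B i (y b)‖ ^ 2 ≤ (b₀ * ‖y b‖) ^ 2 := pow_le_pow_left₀ (norm_nonneg _) k2 2
            _ = b₀ ^ 2 * ‖y b‖ ^ 2 := by ring
            _ ≤ b₀ ^ 2 * (6400 * r) := mul_le_mul_of_nonneg_left (hw3' b hb).1 (sq_nonneg _)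
            _ = D := by rw [hD]; ring
        rw [ha₀2]
        rcases hD0.eq_or_lt with h | h
        · rw [← h]; simp; positivity
        · rw [div_mul_eq_mul_div, div_le_iff₀ h]
          exact mul_le_mul_of_nonneg_left k1 hC2.le
      have := row_ineq (u := B i (y b)) (u' := B i (y c)) hC ha₀0 hR
      have e1 : cc a₀ * ⟪B i (y b), ‖B i (y c)‖⁻¹ • B i (y c)⟫_ℝ ^ 2 / C ^ 2 =
          t * ⟪y b, q c i⟫_ℝ ^ 2 := by
        rw [ht, hq]; dsimp only
        rw [ContinuousLinearMap.adjoint_inner_right, he]; ring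
      rw [e1] at this
      exact this
    rw [div_le_iff₀ (mul_pos (hSpos b) (hSpos c)), h2, hSP, hSP]
    calc ∏ i, γ.real (slab (B i (y c)) C ∩ slab (B i (y b)) C)
        ≤ ∏ i, (γ.real (slab (B i (y c)) C) * γ.real (slab (B i (y b)) C) *
          Real.exp (t * ⟪y b, q c i⟫_ℝ ^ 2)) :=
          Finset.prod_le_prod (fun i _ => measureReal_nonneg) fun i _ => h3 i
      _ = _ := by
          rw [Finset.prod_mul_distrib, Finset.prod_mul_distrib, ← Real.exp_sum, ← Finset.mul_sum]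
          ring
  have hinner : ∀ c, ∑ b, w' b * w' c *
      (μ.real (S b ∩ S c) / (μ.real (S b) * μ.real (S c)) - 1) ≤ w' c * (3200 * t) := by
    intro c
    have h1 : ∑ b, w' b * w' c * (μ.real (S b ∩ S c) / (μ.real (S b) * μ.real (S c)) - 1) =
        w' c * ∑ b, w' b * (μ.real (S b ∩ S c) / (μ.real (S b) * μ.real (S c)) - 1) := by
      rw [Finset.mul_sum]
      exact Finset.sum_congr rfl fun b _ => by ring
    rw [h1]
    apply mul_le_mul_of_nonneg_left _ (hw0' c)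
    have h2 := sq_moment_sum hw0 hw1 y hw2 (q c) (hqn c) ht0 ht1
    calc ∑ b, w' b * (μ.real (S b ∩ S c) / (μ.real (S b) * μ.real (S c)) - 1)
        ≤ ∑ b, 2 * (w b * (Real.exp (t * ∑ i, ⟪y b, q c i⟫_ℝ ^ 2) - 1)) := by
          refine Finset.sum_le_sum fun b _ => ?_
          have hnn : 0 ≤ Real.exp (t * ∑ i, ⟪y b, q c i⟫_ℝ ^ 2) - 1 := by
            rw [sub_nonneg]
            exact Real.one_le_exp (mul_nonneg ht0 (Finset.sum_nonneg fun i _ => sq_nonneg _))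
          by_cases hb : w' b = 0
          · rw [hb, zero_mul]
            have := mul_nonneg (hw0 b) hnn
            linarith
          · calc w' b * (μ.real (S b ∩ S c) / (μ.real (S b) * μ.real (S c)) - 1)
                ≤ w' b * (Real.exp (t * ∑ i, ⟪y b, q c i⟫_ℝ ^ 2) - 1) :=
                  mul_le_mul_of_nonneg_left (sub_le_sub_right (hratio b c hb) 1) (hw0' b)
              _ ≤ (2 * w b) * (Real.exp (t * ∑ i, ⟪y b, q c i⟫_ℝ ^ 2) - 1) :=
                  mul_le_mul_of_nonneg_right (hw2' b) hnn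
              _ = _ := by ring
      _ = 2 * ∑ b, w b * (Real.exp (t * ∑ i, ⟪y b, q c i⟫_ℝ ^ 2) - 1) := by
          rw [Finset.mul_sum]
      _ ≤ 2 * (1600 * t) := mul_le_mul_of_nonneg_left h2 (by norm_num)
      _ = 3200 * t := by ring
  calc ∑ c, ∑ b, w' b * w' c * (μ.real (S b ∩ S c) / (μ.real (S b) * μ.real (S c)) - 1)
      ≤ ∑ c, w' c * (3200 * t) := Finset.sum_le_sum fun c _ => hinner c
    _ = 3200 * t := by rw [← Finset.sum_mul, hw1', one_mul]

end main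

end Pool.Agent.Y339.KG
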