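import Mathlib
import Pool.Agent.Y339.KG.Final

/-!
# The statement for matrices of independent standard Gaussian variables
-/

set_option autoImplicit false

namespace Pool.Agent.Y339.KG

open MeasureTheory ProbabilityTheory Set Filter
open scoped ENNReal NNReal Topology InnerProductSpace

/-- general form -/
theorem gen {m d n N : ℕ} (v : Fin n → EE d) (hv : ∀ j, ‖v j‖ ≤ 1) (x : Fin n → ℝ)
    (hx : ∀ j, |x j| ≤ 1) (B : Fin m → EE d →L[ℝ] EE d) (hB : ∑ i, ‖B i‖ ^ 2 ≤ 1)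
    {b₀ : ℝ} (hb₀ : ∀ i, ‖B i‖ ≤ b₀) (θ : Fin N → EE d) (hθ : ∀ l, ‖θ l‖ ≤ 1)
    {C : ℝ} (hC : 0 < C) :
    1 - 35200 / C ^ 2 * Real.exp (-(C ^ 2 /
        (35200 * Module.finrank ℝ (Submodule.span ℝ (Set.range v)) * b₀ ^ 2))) ≤
    (Measure.pi fun _ : Fin m => Measure.pi fun _ : Fin d => gaussianReal 0 1).real
      {g | ∃ ε : Fin n → ℝ, (∀ j, ε j = 1 ∨ ε j = -1) ∧
        (∀ i, |∑ k, g i k * (B i (∑ j, (ε j - x j) • v j)) k| ≤ C) ∧
        ∀ l, |⟪θ l, ∑ j, (ε j - x j) • v j⟫_ℝ| ≤ 35200 * Real.sqrt (1 + Real.log (1 + N))} := by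
  set r : ℝ := ((Module.finrank ℝ (Submodule.span ℝ (Set.range v)) : ℕ) : ℝ) with hr
  have hr0 : 0 ≤ r := Nat.cast_nonneg _
  set μ' := Measure.pi fun _ : Fin m => Measure.pi fun _ : Fin d => gaussianReal 0 1 with hμ'
  set φ : (Fin m → Fin d → ℝ) → (Fin m → EE d) := fun g i => WithLp.toLp 2 (g i) with hφ
  have hφm : Measurable φ := by fun_prop
  have hmap : μ'.map φ = Measure.pi fun _ : Fin m => stdGaussian (EE d) := by
    have h1 := Measure.pi_map_pi (μ := fun _ : Fin m => Measure.pi fun _ : Fin d => gaussianReal 0 1)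
      (f := fun _ => (WithLp.toLp 2 : (Fin d → ℝ) → EE d)) (fun _ => by fun_prop)
    rw [hμ', hφ, h1]
    congr 1
    funext i
    exact map_pi_eq_stdGaussian
  set F : Set (Fin m → EE d) := {G | ∀ s : Fin n → Bool, ¬ ((∀ i, |⟪B i (disp v x s), G i⟫_ℝ| ≤ C) ∧
        ∀ l, ⟪disp v x s, θ l⟫_ℝ ^ 2 ≤ 3200 * (2 + Real.log (1 + N)))} with hF
  have hFm : MeasurableSet F := by
    have h1 : F = ⋂ s : Fin n → Bool, ({G | ∀ i, |⟪B i (disp v x s), G i⟫_ℝ| ≤ C} ∩
        {_G | ∀ l, ⟪disp v x s, θ l⟫_ℝ ^ 2 ≤ 3200 * (2 + Real.log (1 + N))})ᶜ := by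
      ext G
      simp only [hF, mem_ofPred_eq, mem_iInter, mem_compl_iff, mem_inter_iff]
    rw [h1]
    refine MeasurableSet.iInter fun s => (MeasurableSet.inter ?_ (MeasurableSet.const _)).compl
    have h2 : {G : Fin m → EE d | ∀ i, |⟪B i (disp v x s), G i⟫_ℝ| ≤ C} =
        ⋂ i, {G | |⟪B i (disp v x s), G i⟫_ℝ| ≤ C} := by ext G; simp
    rw [h2]
    exact MeasurableSet.iInter fun i => measurableSet_le (by fun_prop) measurable_const
  have hmain := main_estimate v hv x hx B hB hb₀ θ hθ hC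
  rw [← hmap, measureReal_def, Measure.map_apply hφm hFm, ← measureReal_def] at hmain
  have hcompl : μ'.real (φ ⁻¹' F)ᶜ = 1 - μ'.real (φ ⁻¹' F) := by
    rw [measureReal_compl (hφm hFm)]
    simp
  have hsub : (φ ⁻¹' F)ᶜ ⊆ {g | ∃ ε : Fin n → ℝ, (∀ j, ε j = 1 ∨ ε j = -1) ∧
        (∀ i, |∑ k, g i k * (B i (∑ j, (ε j - x j) • v j)) k| ≤ C) ∧
        ∀ l, |⟪θ l, ∑ j, (ε j - x j) • v j⟫_ℝ| ≤ 35200 * Real.sqrt (1 + Real.log (1 + N))} := by
    intro g hg
    rw [mem_compl_iff, mem_preimage, hF] at hg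
    simp only [mem_ofPred_eq] at hg
    push Not at hg
    obtain ⟨s, hs1, hs2⟩ := hg
    refine ⟨fun j => sg (s j), fun j => sg_eq _, fun i => ?_, fun l => ?_⟩
    · have h1 := hs1 i
      have h2 : ⟪B i (disp v x s), φ g i⟫_ℝ =
          ∑ k, g i k * (B i (∑ j, (sg (s j) - x j) • v j)) k := by
        rw [PiLp.inner_apply]
        refine Finset.sum_congr rfl fun k _ => ?_
        simp [hφ, disp]
      rw [h2] at h1
      exact h1
    · have h1 := hs2 l
      rw [real_inner_comm] at h1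
      have hlog : 0 ≤ Real.log (1 + N) := Real.log_nonneg (by
        have : (0 : ℝ) ≤ N := Nat.cast_nonneg N
        linarith)
      apply abs_le_of_sq_le_sq _ (by positivity)
      rw [mul_pow, Real.sq_sqrt (by linarith)]
      refine le_trans h1 ?_
      nlinarith
  have h3 := measureReal_mono (μ := μ') hsub
  rw [hcompl] at h3
  refine le_trans ?_ h3
  have h4 : Real.exp (-(C ^ 2 / (25600 * r * b₀ ^ 2))) ≤
      Real.exp (-(C ^ 2 / (35200 * r * b₀ ^ 2))) := by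
    apply Real.exp_le_exp.2
    rw [neg_le_neg_iff]
    rcases (mul_nonneg hr0 (sq_nonneg b₀)).eq_or_lt with h | h
    · rw [mul_assoc, mul_assoc, ← h]; simp
    · apply div_le_div_of_nonneg_left (sq_nonneg C)
      · rw [mul_assoc]; positivity
      · nlinarith
  have h5 : 35200 / C ^ 2 * Real.exp (-(C ^ 2 / (25600 * r * b₀ ^ 2))) ≤
      35200 / C ^ 2 * Real.exp (-(C ^ 2 / (35200 * r * b₀ ^ 2))) :=
    mul_le_mul_of_nonneg_left h4 (by positivity)
  linarith

/-- random linear images -/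
theorem img {m d n : ℕ} (v : Fin n → EE d) (hv : ∀ j, ‖v j‖ ≤ 1) {C : ℝ} (hC : 0 < C) :
    1 - 35200 / C ^ 2 * Real.exp (-(C ^ 2 * m /
        (35200 * Module.finrank ℝ (Submodule.span ℝ (Set.range v))))) ≤
    (Measure.pi fun _ : Fin m => Measure.pi fun _ : Fin d => gaussianReal 0 1).real
      {g | ∃ ε : Fin n → ℝ, (∀ j, ε j = 1 ∨ ε j = -1) ∧
        ∀ i, |∑ k, g i k * ∑ j, ε j * v j k| ≤ C * Real.sqrt m} := by
  rcases Nat.eq_zero_or_pos m with hm | hm
  · subst hm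
    have h1 : {g : Fin 0 → Fin d → ℝ | ∃ ε : Fin n → ℝ, (∀ j, ε j = 1 ∨ ε j = -1) ∧
        ∀ i, |∑ k, g i k * ∑ j, ε j * v j k| ≤ C * Real.sqrt ((0 : ℕ) : ℝ)} = univ := by
      ext g
      simp only [mem_ofPred_eq, mem_univ, iff_true]
      exact ⟨fun _ => 1, fun _ => Or.inl rfl, fun i => i.elim0⟩
    rw [h1]
    have h2 : (Measure.pi fun _ : Fin 0 => Measure.pi fun _ : Fin d =>
        gaussianReal 0 1).real univ = 1 := by simp
    rw [h2]
    have : 0 ≤ 35200 / C ^ 2 * Real.exp (-(C ^ 2 * ((0 : ℕ) : ℝ) /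
        (35200 * Module.finrank ℝ (Submodule.span ℝ (Set.range v))))) := by positivity
    linarith
  · have hm0 : (0 : ℝ) < m := by exact_mod_cast hm
    have hs : 0 < Real.sqrt m := Real.sqrt_pos.2 hm0
    set B : Fin m → EE d →L[ℝ] EE d := fun _ => (Real.sqrt m)⁻¹ • ContinuousLinearMap.id ℝ (EE d)
      with hB
    have hBn : ∀ i, ‖B i‖ ≤ (Real.sqrt m)⁻¹ := by
      intro i
      rw [hB]; dsimp only
      rw [norm_smul, norm_inv, Real.norm_eq_abs, abs_of_pos hs]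
      calc (Real.sqrt m)⁻¹ * ‖ContinuousLinearMap.id ℝ (EE d)‖ ≤ (Real.sqrt m)⁻¹ * 1 :=
            mul_le_mul_of_nonneg_left ContinuousLinearMap.norm_id_le (by positivity)
        _ = _ := mul_one _
    have hB1 : ∑ i, ‖B i‖ ^ 2 ≤ 1 := by
      calc ∑ i, ‖B i‖ ^ 2 ≤ ∑ _i : Fin m, ((Real.sqrt m)⁻¹) ^ 2 :=
            Finset.sum_le_sum fun i _ => pow_le_pow_left₀ (norm_nonneg _) (hBn i) 2
        _ = 1 := by
            rw [Finset.sum_const, Finset.card_univ, Fintype.card_fin, nsmul_eq_mul, inv_pow,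
              Real.sq_sqrt hm0.le, mul_inv_cancel₀ hm0.ne']
    have h := gen (N := 0) v hv (fun _ => 0) (fun _ => by simp) B hB1 hBn (fun l => l.elim0)
      (fun l => l.elim0) hC
    have e1 : C ^ 2 / (35200 * (Module.finrank ℝ (Submodule.span ℝ (Set.range v)) : ℝ) *
        ((Real.sqrt m)⁻¹) ^ 2) =
        C ^ 2 * m / (35200 * Module.finrank ℝ (Submodule.span ℝ (Set.range v))) := by
      rw [inv_pow, Real.sq_sqrt hm0.le]
      by_cases hr : (Module.finrank ℝ (Submodule.span ℝ (Set.range v)) : ℝ) = 0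
      · rw [hr]; simp
      · field_simp
    rw [e1] at h
    refine h.trans (measureReal_mono ?_)
    rintro g ⟨ε, hε, h1, -⟩
    refine ⟨ε, hε, fun i => ?_⟩
    have h2 := h1 i
    have h3 : ∑ k, g i k * (B i (∑ j, (ε j - 0) • v j)) k =
        (∑ k, g i k * ∑ j, ε j * v j k) / Real.sqrt m := by
      rw [Finset.sum_div]
      refine Finset.sum_congr rfl fun k _ => ?_
      rw [hB]
      simp only [sub_zero, smul_apply, ContinuousLinearMap.id_apply,
        PiLp.smul_apply, smul_eq_mul]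
      have h4 : (∑ j, ε j • v j) k = ∑ j, ε j * v j k := by
        simp
      rw [h4]
      ring
    rw [h3, abs_div, abs_of_pos hs, div_le_iff₀ hs] at h2
    exact h2

end Pool.Agent.Y339.KG
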